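import Pool.Agent.H110.NetStrong

/-!
# The arithmetic condition on common nets
-/

set_option autoImplicit false

namespace Pool.Agent.H110.Net

open Complex

/-- A map which is linear over a subfield of `ℂ` closed under conjugation. -/
lemma exists_linear (E : Subfield ℂ) (hE : ∀ x ∈ E, (starRingEnd ℂ) x ∈ E)
    (θ : ℂ) (hθ : θ ∈ E) (hθ' : θ.im ≠ 0) (z : ℂ) (hz : z ≠ 0) :
    ∃ L : ℂ →+ ℂ, (∀ κ ∈ E, ∀ v, L (κ * v) = κ * L v) ∧ (∀ v, L v ∈ E) ∧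
      (∀ x : ℝ, (L x).im = 0) ∧ L z ≠ 0 := by
  obtain ⟨g, hg⟩ := Module.Projective.exists_dual_ne_zero E hz
  have hg1 : ∀ κ ∈ E, ∀ v, (g (κ * v) : ℂ) = κ * (g v : ℂ) := by
    intro κ hκ v
    have : κ * v = (⟨κ, hκ⟩ : E) • v := rfl
    rw [this, map_smul]; rfl
  let Lc : ℂ → (ℂ →+ ℂ) := fun c =>
    { toFun := fun v => c * (g v : ℂ) + (starRingEnd ℂ) (c * (g ((starRingEnd ℂ) v) : ℂ))
      map_zero' := by simp
      map_add' := by
        intro x y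
        simp only [map_add, map_mul, Subfield.coe_add]
        ring }
  have hLc : ∀ c v, Lc c v = c * (g v : ℂ) + (starRingEnd ℂ) (c * (g ((starRingEnd ℂ) v) : ℂ)) :=
    fun c v => rfl
  have h1 : ∀ c, ∀ κ ∈ E, ∀ v, Lc c (κ * v) = κ * Lc c v := by
    intro c κ hκ v
    rw [hLc, hLc, hg1 κ hκ, map_mul (starRingEnd ℂ) κ v, hg1 _ (hE κ hκ), map_mul, map_mul,
      map_mul, Complex.conj_conj]
    ring
  have h2 : ∀ c (x : ℝ), (Lc c x).im = 0 := by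
    intro c x
    rw [hLc, Complex.conj_ofReal]
    simp
    ring
  have h3 : Lc 1 z ≠ 0 ∨ Lc θ z ≠ 0 := by
    by_contra hcon
    push Not at hcon
    obtain ⟨e1, e2⟩ := hcon
    rw [hLc, one_mul, one_mul] at e1
    rw [hLc, map_mul] at e2
    have h4 : (θ - (starRingEnd ℂ) θ) * (g z : ℂ) = 0 := by
      linear_combination e2 - (starRingEnd ℂ) θ * e1
    have h5 : θ - (starRingEnd ℂ) θ ≠ 0 := by
      intro h
      apply hθ'
      have := congrArg Complex.im h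
      simp at this
      linarith
    have h6 := (mul_eq_zero.mp h4).resolve_left h5
    exact hg (by exact_mod_cast h6)
  have h4 : ∀ c ∈ E, ∀ v, Lc c v ∈ E := by
    intro c hc v
    rw [hLc]
    exact E.add_mem (E.mul_mem hc (g v).2) (hE _ (E.mul_mem hc (g _).2))
  rcases h3 with h | h
  · exact ⟨Lc 1, h1 1, h4 1 E.one_mem, h2 1, h⟩
  · exact ⟨Lc θ, h1 θ, h4 θ hθ, h2 θ, h⟩

lemma rt_im_ne {k : ℕ} (hk : 3 ≤ k) : (rt k).im ≠ 0 := by
  unfold rt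
  rw [show (2 * (Real.pi : ℂ) * I / k) = ((2 * Real.pi / k : ℝ) : ℂ) * I by push_cast; ring,
    Complex.exp_ofReal_mul_I_im]
  apply ne_of_gt
  apply Real.sin_pos_of_pos_of_lt_pi
  · positivity
  · have hk' : (3 : ℝ) ≤ k := by exact_mod_cast hk
    rw [div_lt_iff₀ (by linarith)]
    nlinarith [Real.pi_pos]

lemma platonic_three_le {k N : ℕ} (h : IsPlatonic k N) : 3 ≤ k ∧ 0 < N := by
  rcases h with h | h | h | h | h <;> omega

section

variable {k₁ N₁ k₂ N₂ : ℕ} {S₁ : Surface k₁ N₁} {S₂ : Surface k₂ N₂} {s₁ s₂ : ℝ}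
  {n : ℕ} {p : ZMod n → ℂ}

/-- **The norm condition.** -/
theorem norm_condition [NeZero n] [NeZero k₁] [NeZero k₂] (hk₁ : 3 ≤ k₁) (hk₂ : 3 ≤ k₂)
    (hN₂ : 0 < N₂) (hs₂ : 0 < s₂)
    (A : NetOn S₁ s₁ p) (B : NetOn S₂ s₂ p)
    (E : Subfield ℂ) (hE : ∀ x ∈ E, (starRingEnd ℂ) x ∈ E) (hr₁ : rt k₁ ∈ E) (hr₂ : rt k₂ ∈ E)
    (u : ℂ) (hu : u ≠ 0)
    (hdir : ∀ j, A.edgesOn j ≠ B.edgesOn j → ∃ κ ∈ E, ∃ x : ℝ, p (j + 1) - p j = x * κ * u) :
    ∃ ρ ∈ E, (N₂ * unitArea k₂ : ℝ) = ‖ρ‖ ^ 2 * (N₁ * unitArea k₁) := by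
  have hs₂' : (s₂ : ℂ) ≠ 0 := by exact_mod_cast hs₂.ne'
  have hne₁ := nonempty_of_triangulation A.tri
  have hne₂ := nonempty_of_triangulation B.tri
  set t₁ := Classical.arbitrary A.T
  set t₂ := Classical.arbitrary B.T
  obtain ⟨L, hL1, hL2, hL3, hL4⟩ := exists_linear E hE (rt k₁) hr₁ (rt_im_ne hk₁)
    (u⁻¹ * (s₂ / B.fold.rot t₂)) (mul_ne_zero (inv_ne_zero hu) (div_ne_zero hs₂' (rot_ne B.fold t₂)))
  have hsum : ∑ e : A.T × ZMod 3, cross (frame L u (A.q e.1 e.2)) (frame L u (A.q e.1 (e.2 + 1)))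
        = ∑ e : B.T × ZMod 3, cross (frame L u (B.q e.1 e.2)) (frame L u (B.q e.1 (e.2 + 1))) := by
    apply two_nets
    intro j hj a b
    obtain ⟨κ, hκ, x, hx⟩ := hdir j hj
    rw [hx]
    have e : ∀ a : ℝ, frame L u (a * (x * κ * u)) = κ * L ((a * x : ℝ) : ℂ) := by
      intro a
      rw [frame_apply, ← hL1 κ hκ]
      congr 1
      push_cast
      field_simp
    rw [e, e, cross_mul, cross_real (hL3 _) (hL3 _), mul_zero]
  have f1 := net_formula (by omega) (frame_semi (k := k₁) (fun v => hL1 _ hr₁ v) u) (norm_rt k₁)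
    A.fold A.conn t₁
  have f2 := net_formula (by omega) (frame_semi (k := k₂) (fun v => hL1 _ hr₂ v) u) (norm_rt k₂)
    B.fold B.conn t₂
  rw [hsum, f2, frame_apply, frame_apply, unitArea_eq, unitArea_eq] at f1
  have c1 := Ck_pos (by omega) A.fold A.conn
  have c2 := Ck_pos (by omega) B.fold B.conn
  rw [unitArea_eq] at c1 c2
  set x₁ := L (u⁻¹ * (s₁ / A.fold.rot t₁)) with hx₁
  set x₂ := L (u⁻¹ * (s₂ / B.fold.rot t₂)) with hx₂
  refine ⟨x₁ / x₂, E.div_mem (hL2 _) (hL2 _), ?_⟩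
  have hx₂' : ‖x₂‖ ≠ 0 := norm_ne_zero_iff.mpr hL4
  rw [norm_div, div_pow]
  field_simp
  linarith

/-- **The case of triangular faces.** -/
theorem differ_hexagonal [NeZero n] {S₁ : Surface 3 N₁} {S₂ : Surface 3 N₂}
    (hN₁ : N₁ = 4 ∨ N₁ = 8 ∨ N₁ = 20) (hN₂ : N₂ = 4 ∨ N₂ = 8 ∨ N₂ = 20) (hne : N₁ ≠ N₂)
    (hs₁ : 0 < s₁) (A : NetOn S₁ s₁ p) (B : NetOn S₂ s₂ p)
    (u : ℂ) (hu : u ≠ 0) :
    ∃ j, A.edgesOn j ≠ B.edgesOn j ∧
      ∀ (a b : ℚ) (x : ℝ), p (j + 1) - p j ≠ x * (a + b * rt 3) * u := by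
  by_contra hcon
  push Not at hcon
  have hs₁' : (s₁ : ℂ) ≠ 0 := by exact_mod_cast hs₁.ne'
  have hne₁ := nonempty_of_triangulation A.tri
  have hne₂ := nonempty_of_triangulation B.tri
  set t₁ := Classical.arbitrary A.T
  set t₂ := Classical.arbitrary B.T
  set z : ℂ := u⁻¹ * (s₁ / A.fold.rot t₁) with hzdef
  have hz : z ≠ 0 := mul_ne_zero (inv_ne_zero hu) (div_ne_zero hs₁' (rot_ne A.fold t₁))
  obtain ⟨L, hL1, hL2, hL3, hL4⟩ := exists_rational z hz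
  have hLq : ∀ (a b : ℚ) v, L ((a + b * rt 3) * v) = (a + b * rt 3) * L v := by
    intro a b v
    have h1 : ∀ (a : ℚ) (v : ℂ), L (a * v) = a * L v := by
      intro a v
      have := map_rat_smul L a v
      rw [Rat.smul_def, Rat.smul_def] at this
      exact this
    rw [add_mul, map_add, h1, mul_assoc, h1, hL1]; ring
  have hsum : ∑ e : A.T × ZMod 3, cross (frame L u (A.q e.1 e.2)) (frame L u (A.q e.1 (e.2 + 1)))
        = ∑ e : B.T × ZMod 3, cross (frame L u (B.q e.1 e.2)) (frame L u (B.q e.1 (e.2 + 1))) := by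
    apply two_nets
    intro j hj a' b'
    obtain ⟨a, b, x, hx⟩ := hcon j hj
    rw [hx]
    have e : ∀ c : ℝ, frame L u (c * (x * (a + b * rt 3) * u))
        = (a + b * rt 3) * L ((c * x : ℝ) : ℂ) := by
      intro c
      rw [frame_apply, ← hLq]
      congr 1
      push_cast
      field_simp
    rw [e, e, cross_mul, cross_real (hL2 _) (hL2 _), mul_zero]
  have f1 := net_formula (by norm_num) (frame_semi hL1 u) (norm_rt 3) A.fold A.conn t₁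
  have f2 := net_formula (by norm_num) (frame_semi hL1 u) (norm_rt 3) B.fold B.conn t₂
  rw [hsum, f2] at f1
  have c1 := Ck_pos (by norm_num) A.fold A.conn
  rw [frame_apply, frame_apply] at f1
  obtain ⟨a, b, hab⟩ := hL4 (u⁻¹ * (s₁ / A.fold.rot t₁))
  obtain ⟨c, d, hcd⟩ := hL4 (u⁻¹ * (s₂ / B.fold.rot t₂))
  rw [hab, hcd] at f1
  have f3 : (N₁ : ℝ) * ((a ^ 2 - a * b + b ^ 2 : ℚ) : ℝ)
      = N₂ * ((c ^ 2 - c * d + d ^ 2 : ℚ) : ℝ) := by
    have : Ck 3 (rt 3) * ((N₁ : ℝ) * ((a ^ 2 - a * b + b ^ 2 : ℚ) : ℝ))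
        = Ck 3 (rt 3) * (N₂ * ((c ^ 2 - c * d + d ^ 2 : ℚ) : ℝ)) := by linarith
    exact mul_left_cancel₀ c1.ne' this
  have f4 : (N₁ : ℚ) * (a ^ 2 - a * b + b ^ 2) = N₂ * (c ^ 2 - c * d + d ^ 2) := by
    exact_mod_cast f3
  have f5 := norm_obstruction N₁ N₂ hN₁ hN₂ hne a b c d f4
  rw [f5] at hab
  apply hL3
  have : ‖L z‖ ^ 2 = 0 := by rw [hzdef, hab]; simp
  exact norm_eq_zero.mp (pow_eq_zero_iff (by norm_num) |>.mp this)

end

end Pool.Agent.H110.Net
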