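import Pool.Agent.H110.NetDefs

/-!
# The area form of a folded triangulation
-/

set_option autoImplicit false

namespace Pool.Agent.H110.Net

open Complex

lemma cross_add_left (a b c : ℂ) : cross (a + b) c = cross a c + cross b c := by
  simp [cross, add_mul]

lemma cross_add_right (a b c : ℂ) : cross a (b + c) = cross a b + cross a c := by
  simp [cross, mul_add]

lemma cross_sub_left (a b c : ℂ) : cross (a - b) c = cross a c - cross b c := by
  simp [cross, sub_mul]

lemma cross_sub_right (a b c : ℂ) : cross a (b - c) = cross a b - cross a c := by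
  simp [cross, mul_sub]

lemma cross_self (a : ℂ) : cross a a = 0 := by
  simp [cross, Complex.mul_im]; ring

lemma cross_comm (a b : ℂ) : cross a b = - cross b a := by
  simp [cross, Complex.mul_im]; ring

lemma cross_zero_left (a : ℂ) : cross 0 a = 0 := by simp [cross]
lemma cross_zero_right (a : ℂ) : cross a 0 = 0 := by simp [cross]

lemma cross_sum_right {ι : Type*} (s : Finset ι) (a : ℂ) (f : ι → ℂ) :
    cross a (∑ i ∈ s, f i) = ∑ i ∈ s, cross a (f i) := by
  classical
  induction s using Finset.induction_on with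
  | empty => simp [cross]
  | insert i s hi ih => rw [Finset.sum_insert hi, Finset.sum_insert hi, cross_add_right, ih]

lemma cross_mul (u a b : ℂ) : cross (u * a) (u * b) = ‖u‖ ^ 2 * cross a b := by
  have h : (starRingEnd ℂ) (u * a) * (u * b) = ((‖u‖ ^ 2 : ℝ) : ℂ) * ((starRingEnd ℂ) a * b) := by
    have h2 : ((‖u‖ ^ 2 : ℝ) : ℂ) = (starRingEnd ℂ) u * u := by
      rw [Complex.conj_mul']; push_cast; rfl
    rw [h2, map_mul]; ring
  unfold cross
  rw [h, Complex.im_ofReal_mul]

/-- the sum over the three edges of a triangle is not changed by translations -/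
lemma cyc_translate (a : ZMod 3 → ℂ) (v : ℂ) :
    ∑ i, cross (a i + v) (a (i + 1) + v) = ∑ i, cross (a i) (a (i + 1)) := by
  have h : ∀ i, cross (a i + v) (a (i + 1) + v) = cross (a i) (a (i + 1))
      + (cross (a i) v - cross (a (i + 1)) v) := by
    intro i
    rw [cross_add_left, cross_add_right, cross_add_right, cross_self, cross_comm v (a (i + 1))]
    ring
  simp_rw [h]
  rw [Finset.sum_add_distrib, Finset.sum_sub_distrib]
  have h2 : ∑ i : ZMod 3, cross (a (i + 1)) v = ∑ i : ZMod 3, cross (a i) v :=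
    Fintype.sum_equiv (Equiv.addRight (1 : ZMod 3)) _ _ (fun i => rfl)
  rw [h2]; ring

/-- the primitive root of unity -/
noncomputable def rt (k : ℕ) : ℂ := exp (2 * Real.pi * I / k)

lemma rt_pow (k : ℕ) [NeZero k] : rt k ^ k = 1 :=
  (Complex.isPrimitiveRoot_exp k (NeZero.ne k)).pow_eq_one

lemma corner_succ (k : ℕ) (hk : 2 ≤ k) (s : ℝ) (j : ZMod k) :
    corner k s (j + 1) = corner k s j + s * rt k ^ j.val := by
  have : NeZero k := ⟨by omega⟩
  have : Fact (1 < k) := ⟨by omega⟩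
  unfold corner
  change (s : ℂ) * ∑ i ∈ Finset.range (j + 1).val, rt k ^ i
    = (s : ℂ) * ∑ i ∈ Finset.range j.val, rt k ^ i + s * rt k ^ j.val
  rw [← mul_add, ← Finset.sum_range_succ]
  rcases Nat.lt_or_ge (j.val + 1) k with h | h
  · rw [ZMod.val_add_of_lt (by rwa [ZMod.val_one]), ZMod.val_one]
  · have hj : j.val + 1 = k := by
      have := ZMod.val_lt j
      omega
    have h0 : (j + 1).val = 0 := by
      rw [ZMod.val_add, ZMod.val_one, hj, Nat.mod_self]
    rw [h0, hj]
    have hprim := Complex.isPrimitiveRoot_exp k (NeZero.ne k)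
    have := hprim.geom_sum_eq_zero (by omega)
    change ∑ i ∈ Finset.range k, rt k ^ i = 0 at this
    rw [this]; simp

section

variable {k N : ℕ} {S : Surface k N} {s : ℝ} {n : ℕ} {p : ZMod n → ℂ} {T : Type}
    [Fintype T] [DecidableEq T] {q : T → ZMod 3 → ℂ} {Θ : Triangulation p q}

/-- An additive map which is semilinear for the rotation by `2π/k`. -/
def Semi (k : ℕ) (η : ℂ) (M : ℂ →+ ℂ) : Prop := ∀ v, M (rt k * v) = η * M v

lemma Semi.pow {η : ℂ} {M : ℂ →+ ℂ} (h : Semi k η M) (j : ℕ) (v : ℂ) :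
    M (rt k ^ j * v) = η ^ j * M v := by
  induction j with
  | zero => simp
  | succ j ih => rw [pow_succ', mul_assoc, h, ih]; ring

variable (k s) in
/-- the area form of the regular polygon -/
noncomputable def faceForm (M : ℂ →+ ℂ) [NeZero k] : ℝ :=
  ∑ j : ZMod k, cross (M (corner k s j)) (M (corner k s (j + 1)))

lemma map_sidePoint (hk : 2 ≤ k) {η : ℂ} {M : ℂ →+ ℂ} (h : Semi k η M) (j : ZMod k) (x : ℝ) :
    M (sidePoint (corner k s) j x) = M (corner k s j) + η ^ j.val * M ((x * s : ℝ) : ℂ) := by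
  unfold sidePoint
  rw [corner_succ k hk, map_add]
  congr 1
  rw [← h.pow]
  congr 1
  push_cast; ring

lemma cross_sidePoint (hk : 2 ≤ k) {η : ℂ} {M : ℂ →+ ℂ} (h : Semi k η M) (hη : ‖η‖ = 1)
    (j : ZMod k) (x y : ℝ) :
    cross (M (sidePoint (corner k s) j x)) (M (sidePoint (corner k s) j y)) =
      cross (M (corner k s j)) (η ^ j.val * M (((y - x) * s : ℝ) : ℂ))
        + cross (M ((x * s : ℝ) : ℂ)) (M ((y * s : ℝ) : ℂ)) := by
  rw [map_sidePoint hk h, map_sidePoint hk h]
  have e1 : M (((y - x) * s : ℝ) : ℂ) = M ((y * s : ℝ) : ℂ) - M ((x * s : ℝ) : ℂ) := by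
    rw [← map_sub]; congr 1; push_cast; ring
  rw [e1, mul_sub, cross_sub_right, cross_add_left, cross_add_right, cross_add_right, cross_self,
    cross_mul, norm_pow, hη, cross_comm (η ^ j.val * M ((x * s : ℝ) : ℂ)) (M (corner k s j))]
  ring

/-- the contribution of a pair of glued sides -/
noncomputable def sideForm (S : Surface k N) (s : ℝ) (η : ℂ) (M : ℂ →+ ℂ) (x : Fin N × ZMod k)
    (r : ℝ) : ℝ :=
  cross (M (corner k s x.2)) (η ^ x.2.val * M ((r * s : ℝ) : ℂ))
    + cross (M (corner k s (S.glue x).2)) (η ^ (S.glue x).2.val * M ((r * s : ℝ) : ℂ))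
    + cross (M (s : ℂ)) (M ((r * s : ℝ) : ℂ))

lemma sideForm_sum {ι : Type*} (t : Finset ι) (r : ι → ℝ) (η : ℂ) (M : ℂ →+ ℂ)
    (x : Fin N × ZMod k) :
    ∑ i ∈ t, sideForm S s η M x (r i) = sideForm S s η M x (∑ i ∈ t, r i) := by
  have e : M (((∑ i ∈ t, r i) * s : ℝ) : ℂ) = ∑ i ∈ t, M ((r i * s : ℝ) : ℂ) := by
    rw [← map_sum]; congr 1; push_cast; rw [Finset.sum_mul]
  unfold sideForm
  rw [e, Finset.mul_sum, Finset.mul_sum, cross_sum_right, cross_sum_right, cross_sum_right,
    Finset.sum_add_distrib, Finset.sum_add_distrib]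

lemma sideForm_one (hk : 2 ≤ k) {η : ℂ} {M : ℂ →+ ℂ} (h : Semi k η M) (x : Fin N × ZMod k) :
    sideForm S s η M x 1 = cross (M (corner k s x.2)) (M (corner k s (x.2 + 1)))
      + cross (M (corner k s (S.glue x).2)) (M (corner k s ((S.glue x).2 + 1))) := by
  unfold sideForm
  have e : ∀ j : ZMod k, M (corner k s (j + 1)) = M (corner k s j) + η ^ j.val * M (s : ℂ) := by
    intro j
    rw [corner_succ k hk, map_add, ← h.pow]
    congr 2; ring
  rw [e, e, one_mul, cross_self, cross_add_right, cross_add_right, cross_self, cross_self]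
  ring

lemma pair_outer (hk : 2 ≤ k) {η : ℂ} {M : ℂ →+ ℂ} (h : Semi k η M) (hη : ‖η‖ = 1)
    (F : Folding S s Θ) (e : T × ZMod 3) (he : F.onSide e = true) :
    cross (M (F.loc e.1 e.2)) (M (F.loc e.1 (e.2 + 1)))
      + cross (M (F.loc (F.nbr e).1 (F.nbr e).2)) (M (F.loc (F.nbr e).1 ((F.nbr e).2 + 1)))
      = sideForm S s η M (F.face e.1, F.side e) (F.hi e - F.lo e) := by
  obtain ⟨-, -, -, h1, h2⟩ := F.outer e he
  obtain ⟨he', hg, hlo, hhi⟩ := F.outer_nbr e he
  obtain ⟨-, -, -, h3, h4⟩ := F.outer (F.nbr e) he'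
  rw [h1, h2, h3, h4, cross_sidePoint hk h hη, cross_sidePoint hk h hη, hlo, hhi]
  unfold sideForm
  rw [hg]
  have e1 : (1 - F.lo e - (1 - F.hi e)) = F.hi e - F.lo e := by ring
  rw [e1]
  have e2 : M (((1 - F.hi e) * s : ℝ) : ℂ) = M (s : ℂ) - M ((F.hi e * s : ℝ) : ℂ) := by
    rw [← map_sub]; congr 1; push_cast; ring
  have e3 : M (((1 - F.lo e) * s : ℝ) : ℂ) = M (s : ℂ) - M ((F.lo e * s : ℝ) : ℂ) := by
    rw [← map_sub]; congr 1; push_cast; ring
  have e4 : M (((F.hi e - F.lo e) * s : ℝ) : ℂ)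
      = M ((F.hi e * s : ℝ) : ℂ) - M ((F.lo e * s : ℝ) : ℂ) := by
    rw [← map_sub]; congr 1; push_cast; ring
  have key : cross (M ((F.lo e * s : ℝ) : ℂ)) (M ((F.hi e * s : ℝ) : ℂ))
      + cross (M (((1 - F.hi e) * s : ℝ) : ℂ)) (M (((1 - F.lo e) * s : ℝ) : ℂ))
      = cross (M (s : ℂ)) (M (((F.hi e - F.lo e) * s : ℝ) : ℂ)) := by
    rw [e2, e3, e4, cross_sub_left, cross_sub_right, cross_sub_right, cross_self, cross_sub_right,
      cross_comm (M ((F.hi e * s : ℝ) : ℂ)) (M (s : ℂ)),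
      cross_comm (M ((F.hi e * s : ℝ) : ℂ)) (M ((F.lo e * s : ℝ) : ℂ))]
    ring
  linarith [key]

lemma pair_inner {M : ℂ →+ ℂ} (F : Folding S s Θ) (e : T × ZMod 3) (he : F.onSide e = false) :
    cross (M (F.loc e.1 e.2)) (M (F.loc e.1 (e.2 + 1)))
      + cross (M (F.loc (F.nbr e).1 (F.nbr e).2)) (M (F.loc (F.nbr e).1 ((F.nbr e).2 + 1))) = 0 := by
  obtain ⟨-, h1, h2⟩ := F.inner e he
  rw [h1, h2, cross_comm (M (F.loc e.1 (e.2 + 1)))]
  ring

/-- The area form of the triangles in the faces. -/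
lemma sum_loc [NeZero k] (hk : 2 ≤ k) {η : ℂ} {M : ℂ →+ ℂ} (h : Semi k η M) (hη : ‖η‖ = 1)
    (F : Folding S s Θ) :
    ∑ e : T × ZMod 3, cross (M (F.loc e.1 e.2)) (M (F.loc e.1 (e.2 + 1)))
      = N * faceForm k s M := by
  set V : T × ZMod 3 → ℝ := fun e => cross (M (F.loc e.1 e.2)) (M (F.loc e.1 (e.2 + 1))) with hV
  let σ : Equiv.Perm (T × ZMod 3) := ⟨F.nbr, F.nbr, F.nbr_nbr, F.nbr_nbr⟩
  have h1 : ∑ e, V (F.nbr e) = ∑ e, V e := Equiv.sum_comp σ V
  have h2 : 2 * ∑ e, V e = ∑ e, (V e + V (F.nbr e)) := by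
    rw [Finset.sum_add_distrib, h1]; ring
  have h3 : ∑ e, (V e + V (F.nbr e)) = ∑ e ∈ Finset.univ.filter (fun e => F.onSide e = true),
      sideForm S s η M (F.face e.1, F.side e) (F.hi e - F.lo e) := by
    rw [Finset.sum_filter]
    apply Finset.sum_congr rfl
    intro e _
    split_ifs with he
    · exact pair_outer hk h hη F e he
    · exact pair_inner F e (by simpa using he)
  have h4 : ∑ e ∈ Finset.univ.filter (fun e => F.onSide e = true),
      sideForm S s η M (F.face e.1, F.side e) (F.hi e - F.lo e)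
      = ∑ x : Fin N × ZMod k, sideForm S s η M x 1 := by
    rw [← Finset.sum_fiberwise_of_maps_to
      (s := Finset.univ.filter (fun e => F.onSide e = true))
      (t := (Finset.univ : Finset (Fin N × ZMod k)))
      (g := fun e : T × ZMod 3 => (F.face e.1, F.side e)) (fun _ _ => Finset.mem_univ _)]
    apply Finset.sum_congr rfl
    intro x _
    have h5 := F.fill x.1 x.2
    rw [← h5, ← sideForm_sum]
    rw [Finset.filter_filter]
    have h6 : Finset.univ.filter (fun e : T × ZMod 3 => F.onSide e = true ∧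
        (F.face e.1, F.side e) = x) = Finset.univ.filter
        (fun e : T × ZMod 3 => F.onSide e = true ∧ F.face e.1 = x.1 ∧ F.side e = x.2) := by
      apply Finset.filter_congr
      intro e _
      rw [Prod.ext_iff]
    rw [h6]
    apply Finset.sum_congr rfl
    intro e he
    rw [Finset.mem_filter] at he
    rw [show (F.face e.1, F.side e) = x from Prod.ext he.2.2.1 he.2.2.2]
  have h7 : ∑ x : Fin N × ZMod k, sideForm S s η M x 1
      = 2 * ∑ x : Fin N × ZMod k, cross (M (corner k s x.2)) (M (corner k s (x.2 + 1))) := by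
    simp_rw [sideForm_one hk h]
    rw [Finset.sum_add_distrib]
    let γ : Equiv.Perm (Fin N × ZMod k) := ⟨S.glue, S.glue, S.glue_glue, S.glue_glue⟩
    have := Equiv.sum_comp γ (fun x : Fin N × ZMod k =>
      cross (M (corner k s x.2)) (M (corner k s (x.2 + 1))))
    change ∑ x, cross (M (corner k s (S.glue x).2)) (M (corner k s ((S.glue x).2 + 1))) = _ at this
    rw [this]; ring
  have h8 : ∑ x : Fin N × ZMod k, cross (M (corner k s x.2)) (M (corner k s (x.2 + 1)))
      = N * faceForm k s M := by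
    rw [Fintype.sum_prod_type]
    simp [faceForm]
  have h9 : 2 * ∑ e, V e = 2 * (N * faceForm k s M) := by
    rw [h2, h3, h4, h7, h8]
  linarith

end

end Pool.Agent.H110.Net
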