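import Mathlib

/-!
# Nets of surfaces glued from regular polygons: the definitions

The plane is `ℂ`.  All polygons are given by their cyclically ordered vertices
`p : ZMod n → ℂ`, counterclockwise.
-/

set_option autoImplicit false

namespace Pool.Agent.H110.Net

open Complex

/-- twice the signed area of the triangle with vertices `0, a, b` -/
noncomputable def cross (a b : ℂ) : ℝ := ((starRingEnd ℂ) a * b).im

/-- signed area of a triangle -/
noncomputable def area (q : ZMod 3 → ℂ) : ℝ :=
  (cross (q 0) (q 1) + cross (q 1) (q 2) + cross (q 2) (q 0)) / 2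

/-- The point of the side `[p j, p (j + 1)]` of the polygon `p` with parameter `x ∈ [0, 1]`. -/
noncomputable def sidePoint {n : ℕ} (p : ZMod n → ℂ) (j : ZMod n) (x : ℝ) : ℂ :=
  p j + x * (p (j + 1) - p j)

/-- An edge-to-edge triangulation of the polygon `p` by the triangles `q t`, `t ∈ T`.
The `i`-th edge `(t, i)` of the triangle `t` runs from `q t i` to `q t (i + 1)`.  The triangles are
positively oriented; every edge is either matched with an edge of another triangle, which is the
same segment with the opposite orientation (`mate`), or it lies on a side of the polygon, in the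
direction of the side; and the edges on a side fill this side exactly once. -/
structure Triangulation {n : ℕ} (p : ZMod n → ℂ) {T : Type} [Fintype T] [DecidableEq T]
    (q : T → ZMod 3 → ℂ) where
  /-- all triangles are nondegenerate and positively oriented -/
  pos : ∀ t, 0 < area (q t)
  /-- the edge matched with an edge, if there is one -/
  mate : T × ZMod 3 → Option (T × ZMod 3)
  mate_symm : ∀ e e', mate e = some e' → mate e' = some e
  mate_ne : ∀ e e', mate e = some e' → e' ≠ e
  mate_eq : ∀ e e', mate e = some e' →
    q e'.1 e'.2 = q e.1 (e.2 + 1) ∧ q e'.1 (e'.2 + 1) = q e.1 e.2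
  /-- the side of the polygon which contains an unmatched edge -/
  side : T × ZMod 3 → ZMod n
  /-- the parameters of the end points of an unmatched edge on its side -/
  lo : T × ZMod 3 → ℝ
  hi : T × ZMod 3 → ℝ
  on_side : ∀ e, mate e = none → 0 ≤ lo e ∧ lo e < hi e ∧ hi e ≤ 1 ∧
    q e.1 e.2 = sidePoint p (side e) (lo e) ∧ q e.1 (e.2 + 1) = sidePoint p (side e) (hi e)
  /-- the unmatched edges on the `j`-th side have the total length of this side -/
  fill : ∀ j, ∑ e ∈ Finset.univ.filter (fun e => mate e = none ∧ side e = j), (hi e - lo e) = 1

/-- The triangulated polygon is connected through common edges of the triangles. -/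
def Triangulation.Connected {n : ℕ} {p : ZMod n → ℂ} {T : Type} [Fintype T] [DecidableEq T]
    {q : T → ZMod 3 → ℂ} (Θ : Triangulation p q) : Prop :=
  ∀ t t' : T, Relation.ReflTransGen (fun a b => ∃ i j, Θ.mate (a, i) = some (b, j)) t t'

/-- The vertices of the regular `k`-gon with side length `s`, counterclockwise, with first side
`[0, s]`. -/
noncomputable def corner (k : ℕ) (s : ℝ) (j : ZMod k) : ℂ :=
  s * ∑ i ∈ Finset.range j.val, exp (2 * Real.pi * I / k) ^ i

/-- A closed surface glued from `N` regular `k`-gons edge to edge: the side `x = (f, j)` (the `j`-th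
side of the `f`-th face) is glued to the side `glue x`, with the orientations reversed.  The
surfaces of the Platonic solids are such surfaces, with `(k, N) = (3, 4), (4, 6), (3, 8), (5, 12),
(3, 20)`. -/
structure Surface (k N : ℕ) where
  glue : Fin N × ZMod k → Fin N × ZMod k
  glue_glue : ∀ x, glue (glue x) = x
  glue_ne : ∀ x, glue x ≠ x

/-- A folding of the triangulated polygon `Θ` onto the surface `S` with faces of side length `s`:
every triangle is moved by an orientation preserving isometry `z ↦ rot t * z + shift t` into a face
(`face`, `loc`), such that the images form an edge-to-edge triangulation of the surface `S`.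
Every edge `e` of every triangle has a partner `nbr e` on the surface: either both lie in the same
face and are the same segment with opposite orientations, or (`onSide`) they lie on two sides of
faces which are glued in `S` and they are identified by the gluing.  The edges on each side of
each face fill this side exactly once.  Edges matched in the polygon remain matched on the
surface. -/
structure Folding {k N : ℕ} (S : Surface k N) (s : ℝ) {n : ℕ} {p : ZMod n → ℂ} {T : Type}
    [Fintype T] [DecidableEq T] {q : T → ZMod 3 → ℂ} (Θ : Triangulation p q) where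
  /-- the face into which a triangle is moved -/
  face : T → Fin N
  /-- the rotations and translations -/
  rot : T → ℂ
  norm_rot : ∀ t, ‖rot t‖ = 1
  shift : T → ℂ
  /-- the triangles in the coordinates of the faces -/
  loc : T → ZMod 3 → ℂ
  loc_eq : ∀ t i, loc t i = rot t * q t i + shift t
  loc_mem : ∀ t i, loc t i ∈ convexHull ℝ (Set.range (corner k s))
  /-- the partner of an edge on the surface -/
  nbr : T × ZMod 3 → T × ZMod 3
  nbr_nbr : ∀ e, nbr (nbr e) = e
  nbr_ne : ∀ e, nbr e ≠ e
  mate_nbr : ∀ e e', Θ.mate e = some e' → nbr e = e'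
  /-- the edges lying on the sides of faces -/
  onSide : T × ZMod 3 → Bool
  inner : ∀ e, onSide e = false → face (nbr e).1 = face e.1 ∧
    loc (nbr e).1 (nbr e).2 = loc e.1 (e.2 + 1) ∧ loc (nbr e).1 ((nbr e).2 + 1) = loc e.1 e.2
  side : T × ZMod 3 → ZMod k
  lo : T × ZMod 3 → ℝ
  hi : T × ZMod 3 → ℝ
  outer : ∀ e, onSide e = true → 0 ≤ lo e ∧ lo e < hi e ∧ hi e ≤ 1 ∧
    loc e.1 e.2 = sidePoint (corner k s) (side e) (lo e) ∧
    loc e.1 (e.2 + 1) = sidePoint (corner k s) (side e) (hi e)
  /-- the partner of an edge on a side lies on the side glued to it, and the gluing identifies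
  the two edges -/
  outer_nbr : ∀ e, onSide e = true → onSide (nbr e) = true ∧
    S.glue (face e.1, side e) = (face (nbr e).1, side (nbr e)) ∧
    lo (nbr e) = 1 - hi e ∧ hi (nbr e) = 1 - lo e
  fill : ∀ f j, ∑ e ∈ Finset.univ.filter
    (fun e : T × ZMod 3 => onSide e = true ∧ face e.1 = f ∧ side e = j), (hi e - lo e) = 1

/-- The polygon `p` is a net of the surface `S` with faces of side length `s`: it has a
triangulation, connected through common edges, which can be folded onto a triangulation of `S`. -/
def IsNet {k N : ℕ} (S : Surface k N) (s : ℝ) {n : ℕ} (p : ZMod n → ℂ) : Prop :=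
  ∃ (T : Type) (_ : Fintype T) (_ : DecidableEq T) (q : T → ZMod 3 → ℂ) (Θ : Triangulation p q),
    Θ.Connected ∧ Nonempty (Folding S s Θ)

/-- The polygon `p` is a net of both surfaces and there is a common triangulation: one and the same
triangulation of `p` is folded onto triangulations of both surfaces. -/
def IsCommonTriangulatedNet {k₁ N₁ k₂ N₂ : ℕ} (S₁ : Surface k₁ N₁) (s₁ : ℝ) (S₂ : Surface k₂ N₂)
    (s₂ : ℝ) {n : ℕ} (p : ZMod n → ℂ) : Prop :=
  ∃ (T : Type) (_ : Fintype T) (_ : DecidableEq T) (q : T → ZMod 3 → ℂ) (Θ : Triangulation p q),
    Θ.Connected ∧ Nonempty (Folding S₁ s₁ Θ) ∧ Nonempty (Folding S₂ s₂ Θ)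

end Pool.Agent.H110.Net
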