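import Pool.Agent.H110.NetMaps

/-!
# No common nets
-/

set_option autoImplicit false

namespace Pool.Agent.H110.Net

open Complex

/-- the norm form of the Eisenstein integers -/
def Qf (a b : ℤ) : ℤ := a ^ 2 - a * b + b ^ 2

lemma Qf_even {a b : ℤ} (h : (2 : ℤ) ∣ Qf a b) : (2 : ℤ) ∣ a ∧ (2 : ℤ) ∣ b := by
  unfold Qf at h
  have ha := Int.emod_two_eq_zero_or_one a
  have hb := Int.emod_two_eq_zero_or_one b
  have h' := Int.emod_emod_of_dvd (a ^ 2 - a * b + b ^ 2) (dvd_refl (2 : ℤ))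
  rw [Int.dvd_iff_emod_eq_zero] at h
  rcases ha with ha | ha <;> rcases hb with hb | hb <;>
    simp [Int.sub_emod, Int.add_emod, Int.mul_emod, pow_two, ha, hb] at h <;>
    exact ⟨Int.dvd_of_emod_eq_zero ha, Int.dvd_of_emod_eq_zero hb⟩

lemma Qf_five {a b : ℤ} (h : (5 : ℤ) ∣ Qf a b) : (5 : ℤ) ∣ a ∧ (5 : ℤ) ∣ b := by
  unfold Qf at h
  have ha : a % 5 = 0 ∨ a % 5 = 1 ∨ a % 5 = 2 ∨ a % 5 = 3 ∨ a % 5 = 4 := by omega
  have hb : b % 5 = 0 ∨ b % 5 = 1 ∨ b % 5 = 2 ∨ b % 5 = 3 ∨ b % 5 = 4 := by omega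
  rw [Int.dvd_iff_emod_eq_zero] at h
  rcases ha with ha | ha | ha | ha | ha <;> rcases hb with hb | hb | hb | hb | hb <;>
    simp [Int.sub_emod, Int.add_emod, Int.mul_emod, pow_two, ha, hb] at h <;>
    exact ⟨Int.dvd_of_emod_eq_zero ha, Int.dvd_of_emod_eq_zero hb⟩

lemma Qf_mul (p a b : ℤ) : Qf (p * a) (p * b) = p ^ 2 * Qf a b := by unfold Qf; ring

lemma Qf_zero {a b : ℤ} (h : Qf a b = 0) : a = 0 ∧ b = 0 := by
  unfold Qf at h
  constructor <;> nlinarith [sq_nonneg (2 * a - b), sq_nonneg (2 * b - a), sq_nonneg a, sq_nonneg b]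

lemma Qf_nonneg (a b : ℤ) : 0 ≤ Qf a b := by
  unfold Qf
  nlinarith [sq_nonneg (2 * a - b), sq_nonneg b]

/-- descent: `Q(a,b) = 2 Q(c,d)` has only the zero solution -/
lemma descent_two : ∀ (n : ℕ) (a b c d : ℤ), Qf a b + Qf c d ≤ n → Qf a b = 2 * Qf c d →
    Qf a b = 0 := by
  intro n
  induction n using Nat.strong_induction_on with
  | _ n ih =>
    intro a b c d hn h
    by_contra h0
    obtain ⟨⟨a', rfl⟩, ⟨b', rfl⟩⟩ := Qf_even ⟨Qf c d, h⟩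
    rw [Qf_mul] at h
    have h1 : Qf c d = 2 * Qf a' b' := by linarith
    have hpos : 0 < Qf a' b' := by
      rcases (Qf_nonneg a' b').lt_or_eq with h2 | h2
      · exact h2
      · rw [Qf_mul, ← h2] at h0; simp at h0
    have h3 := ih (n - 1) (by rw [Qf_mul] at hn; omega) c d a' b'
      (by rw [Qf_mul] at hn; omega) h1
    omega

/-- descent: `Q(a,b) = 5 Q(c,d)` has only the zero solution -/
lemma descent_five : ∀ (n : ℕ) (a b c d : ℤ), Qf a b + Qf c d ≤ n → Qf a b = 5 * Qf c d →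
    Qf a b = 0 := by
  intro n
  induction n using Nat.strong_induction_on with
  | _ n ih =>
    intro a b c d hn h
    by_contra h0
    obtain ⟨⟨a', rfl⟩, ⟨b', rfl⟩⟩ := Qf_five ⟨Qf c d, h⟩
    rw [Qf_mul] at h
    have h1 : Qf c d = 5 * Qf a' b' := by linarith
    have hpos : 0 < Qf a' b' := by
      rcases (Qf_nonneg a' b').lt_or_eq with h2 | h2
      · exact h2
      · rw [Qf_mul, ← h2] at h0; simp at h0
    have h3 := ih (n - 1) (by rw [Qf_mul] at hn; omega) c d a' b'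
      (by rw [Qf_mul] at hn; omega) h1
    omega

/-- descent: `2 Q(a,b) = 5 Q(c,d)` has only the zero solution -/
lemma descent_ten : ∀ (n : ℕ) (a b c d : ℤ), Qf a b + Qf c d ≤ n → 2 * Qf a b = 5 * Qf c d →
    Qf a b = 0 := by
  intro n
  induction n using Nat.strong_induction_on with
  | _ n ih =>
    intro a b c d hn h
    by_contra h0
    obtain ⟨⟨a', rfl⟩, ⟨b', rfl⟩⟩ := Qf_five (a := a) (b := b) (by omega)
    obtain ⟨⟨c', rfl⟩, ⟨d', rfl⟩⟩ := Qf_even (a := c) (b := d) (by omega)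
    rw [Qf_mul, Qf_mul] at h
    have h1 : 2 * Qf c' d' = 5 * Qf a' b' := by linarith
    have hpos : 0 < Qf a' b' := by
      rcases (Qf_nonneg a' b').lt_or_eq with h2 | h2
      · exact h2
      · rw [Qf_mul, ← h2] at h0; simp at h0
    have hc := Qf_nonneg c' d'
    have h3 := ih (n - 1) (by rw [Qf_mul, Qf_mul] at hn; omega) c' d' a' b'
      (by rw [Qf_mul, Qf_mul] at hn; omega) h1
    omega

lemma clear_den (a b c d : ℚ) : ∃ (D : ℕ) (a' b' c' d' : ℤ), 0 < D ∧ a * D = a' ∧ b * D = b' ∧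
    c * D = c' ∧ d * D = d' := by
  refine ⟨a.den * b.den * c.den * d.den, a.num * (b.den * c.den * d.den),
    b.num * (a.den * c.den * d.den), c.num * (a.den * b.den * d.den),
    d.num * (a.den * b.den * c.den), by positivity, ?_, ?_, ?_, ?_⟩ <;> push_cast
  · nth_rw 1 [← Rat.num_div_den a]
    have : (a.den : ℚ) ≠ 0 := by exact_mod_cast a.den_ne_zero
    field_simp
  · nth_rw 1 [← Rat.num_div_den b]
    have : (b.den : ℚ) ≠ 0 := by exact_mod_cast b.den_ne_zero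
    field_simp
  · nth_rw 1 [← Rat.num_div_den c]
    have : (c.den : ℚ) ≠ 0 := by exact_mod_cast c.den_ne_zero
    field_simp
  · nth_rw 1 [← Rat.num_div_den d]
    have : (d.den : ℚ) ≠ 0 := by exact_mod_cast d.den_ne_zero
    field_simp

/-- The areas of the three deltahedra are not related by norms of Eisenstein numbers. -/
lemma norm_obstruction (N₁ N₂ : ℕ) (h₁ : N₁ = 4 ∨ N₁ = 8 ∨ N₁ = 20) (h₂ : N₂ = 4 ∨ N₂ = 8 ∨ N₂ = 20)
    (hne : N₁ ≠ N₂) (a b c d : ℚ)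
    (h : (N₁ : ℚ) * (a ^ 2 - a * b + b ^ 2) = N₂ * (c ^ 2 - c * d + d ^ 2)) :
    a ^ 2 - a * b + b ^ 2 = 0 := by
  obtain ⟨D, a', b', c', d', hD, ha, hb, hc, hd⟩ := clear_den a b c d
  have hD' : (D : ℚ) ≠ 0 := by exact_mod_cast hD.ne'
  have e1 : (Qf a' b' : ℚ) = (a ^ 2 - a * b + b ^ 2) * D ^ 2 := by
    unfold Qf; push_cast; rw [← ha, ← hb]; ring
  have e2 : (Qf c' d' : ℚ) = (c ^ 2 - c * d + d ^ 2) * D ^ 2 := by
    unfold Qf; push_cast; rw [← hc, ← hd]; ring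
  have h3 : (N₁ : ℤ) * Qf a' b' = N₂ * Qf c' d' := by
    have : (N₁ : ℚ) * (Qf a' b' : ℚ) = N₂ * (Qf c' d' : ℚ) := by
      rw [e1, e2]; linear_combination (D : ℚ) ^ 2 * h
    exact_mod_cast this
  have key : Qf a' b' = 0 := by
    have hA := Qf_nonneg a' b'
    have hC := Qf_nonneg c' d'
    rcases h₁ with rfl | rfl | rfl <;> rcases h₂ with rfl | rfl | rfl <;> push_cast at h3
    · exact absurd rfl hne
    · exact descent_two (Qf a' b' + Qf c' d').toNat a' b' c' d' (by omega) (by omega)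
    · exact descent_five (Qf a' b' + Qf c' d').toNat a' b' c' d' (by omega) (by omega)
    · have := descent_two (Qf a' b' + Qf c' d').toNat c' d' a' b' (by omega) (by omega)
      omega
    · exact absurd rfl hne
    · exact descent_ten (Qf a' b' + Qf c' d').toNat a' b' c' d' (by omega) (by omega)
    · have := descent_five (Qf a' b' + Qf c' d').toNat c' d' a' b' (by omega) (by omega)
      omega
    · have := descent_ten (Qf a' b' + Qf c' d').toNat c' d' a' b' (by omega) (by omega)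
      omega
    · exact absurd rfl hne
  rw [key] at e1
  have : (a ^ 2 - a * b + b ^ 2) * (D : ℚ) ^ 2 = 0 := by rw [← e1]; simp
  exact (mul_eq_zero.mp this).resolve_right (pow_ne_zero _ hD')

/-- The pairs (number of sides of a face, number of faces) of the five Platonic solids. -/
def IsPlatonic (k N : ℕ) : Prop :=
  (k = 3 ∧ N = 4) ∨ (k = 4 ∧ N = 6) ∨ (k = 3 ∧ N = 8) ∨ (k = 5 ∧ N = 12) ∨ (k = 3 ∧ N = 20)

/-- All sides of the polygon `p` make angles with a fixed direction which are rational multiples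
of `π`. -/
def RationalAngles {n : ℕ} (p : ZMod n → ℂ) : Prop :=
  ∃ u : ℂ, u ≠ 0 ∧ ∀ j, ∃ (r : ℚ) (x : ℝ), p (j + 1) - p j = x * exp (Real.pi * I * r) * u

/-- All sides of the polygon `p` make angles with a fixed direction which are multiples
of `π / 3`. -/
def TriangularAngles {n : ℕ} (p : ZMod n → ℂ) : Prop :=
  ∃ u : ℂ, u ≠ 0 ∧ ∀ j, ∃ (r : ℤ) (x : ℝ), p (j + 1) - p j = x * exp (Real.pi * I * (r / 3)) * u

lemma exp_rational (r : ℚ) : ∃ h : ℕ, exp (Real.pi * I * r) = rt (2 * r.den) ^ h := by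
  set m := 2 * r.den with hm
  have hm0 : 0 < m := by have := r.den_pos; omega
  refine ⟨(r.num % m).toNat, ?_⟩
  have h1 : exp (Real.pi * I * r) = rt m ^ r.num := by
    unfold rt
    rw [← Complex.exp_int_mul]
    congr 1
    have h2 : (r : ℂ) = (r.num : ℂ) / (r.den : ℂ) := by
      nth_rw 1 [← Rat.num_div_den r]; push_cast; rfl
    rw [h2, hm]
    have : (r.den : ℂ) ≠ 0 := by exact_mod_cast r.den_ne_zero
    push_cast
    field_simp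
  rw [h1]
  have h3 : (r.num : ℤ) = m * (r.num / m) + r.num % m := (Int.mul_ediv_add_emod _ _).symm
  have h4 : (0 : ℤ) ≤ r.num % m := Int.emod_nonneg _ (by exact_mod_cast hm0.ne')
  conv_lhs => rw [h3]
  rw [zpow_add₀ (rt_ne m), zpow_mul, zpow_natCast, (rt_prim m hm0).pow_eq_one, one_zpow, one_mul]
  conv_lhs => rw [← Int.toNat_of_nonneg h4]
  rw [zpow_natCast]

lemma exp_third (r : ℤ) : ∃ (h : ℕ) (c : ℝ), exp (Real.pi * I * (r / 3)) = c * rt 3 ^ h := by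
  -- `exp (π i / 3) = - rt 3 ^ 2`
  have h0 : exp (Real.pi * I * (1 / 3)) = -(rt 3 ^ 2) := by
    unfold rt
    rw [← Complex.exp_nat_mul]
    have : -exp ((2 : ℕ) * (2 * Real.pi * I / (3 : ℕ)))
        = exp (Real.pi * I) * exp ((2 : ℕ) * (2 * Real.pi * I / (3 : ℕ))) := by
      rw [Complex.exp_pi_mul_I]; ring
    rw [this, ← Complex.exp_add]
    rw [Complex.exp_eq_exp_iff_exists_int]
    refine ⟨-1, ?_⟩
    push_cast; ring
  have h1 : exp (Real.pi * I * (r / 3)) = (exp (Real.pi * I * (1 / 3))) ^ r := by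
    rw [← Complex.exp_int_mul]; congr 1; ring
  rw [h1, h0]
  refine ⟨(r % 3).toNat * 2, (-1 : ℝ) ^ r, ?_⟩
  have h3 : r = (3 : ℕ) * (r / 3) + r % 3 := by
    have := (Int.mul_ediv_add_emod r 3).symm
    push_cast; exact this
  have h4 : (0 : ℤ) ≤ r % 3 := Int.emod_nonneg _ (by norm_num)
  have h5 : (rt 3 ^ 2) ^ r = rt 3 ^ ((r % 3).toNat * 2) := by
    conv_lhs => rw [h3]
    rw [zpow_add₀ (pow_ne_zero _ (rt_ne 3)), zpow_mul, zpow_natCast]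
    rw [show (rt 3 ^ 2) ^ 3 = (rt 3 ^ 3) ^ 2 by ring, (rt_prim 3 (by norm_num)).pow_eq_one,
      one_pow, one_zpow, one_mul]
    conv_lhs => rw [← Int.toNat_of_nonneg h4]
    rw [zpow_natCast, ← pow_mul]; congr 1; ring
  rw [show (-(rt 3 ^ 2)) = (-1 : ℂ) * rt 3 ^ 2 by ring, mul_zpow, h5]
  push_cast; ring

lemma cross_real {a b : ℂ} (ha : a.im = 0) (hb : b.im = 0) : cross a b = 0 := by
  simp [cross, ha, hb]

/-- a map which is real on the real axis is flat on lines obtained by roots of unity -/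
lemma flat_of {L : ℂ →+ ℂ} (hreal : ∀ x : ℝ, (L x).im = 0) {ρ η : ℂ} (hη : ‖η‖ = 1)
    (hρ : ∀ v, L (ρ * v) = η * L v) {u : ℂ} (hu : u ≠ 0) (c x y : ℝ) :
    cross (frame L u (x * (c * ρ * u))) (frame L u (y * (c * ρ * u))) = 0 := by
  have e : ∀ x : ℝ, frame L u (x * (c * ρ * u)) = η * L ((x * c : ℝ) : ℂ) := by
    intro x
    rw [frame_apply, ← hρ]
    congr 1
    push_cast
    field_simp
  rw [e, e, cross_mul, cross_real (hreal _) (hreal _), mul_zero]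

lemma pow_map {L : ℂ →+ ℂ} {ρ η : ℂ} (hρ : ∀ v, L (ρ * v) = η * L v) (h : ℕ) :
    ∀ v, L (ρ ^ h * v) = η ^ h * L v := by
  induction h with
  | zero => intro v; simp
  | succ h ih => intro v; rw [pow_succ, mul_assoc, ih, hρ]; ring

lemma platonic_two_le {k N : ℕ} (h : IsPlatonic k N) : 2 ≤ k ∧ 0 < N := by
  rcases h with h | h | h | h | h <;> omega

/-- Twisted maps for two Platonic solids with different faces; after exchanging the solids the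
first one is twisted. -/
lemma twist_pair {k₁ N₁ k₂ N₂ : ℕ} (h₁ : IsPlatonic k₁ N₁) (h₂ : IsPlatonic k₂ N₂)
    (hk : k₁ ≠ k₂) (M : ℕ) (hM : 0 < M) :
    (∀ z : ℂ, z ≠ 0 → ∃ L : ℂ →+ ℂ, Semi k₁ ((starRingEnd ℂ) (rt k₁)) L ∧ Semi k₂ (rt k₂) L ∧
      (∀ x : ℝ, (L x).im = 0) ∧ L z ≠ 0 ∧ ∃ η : ℂ, ‖η‖ = 1 ∧ ∀ v, L (rt M * v) = η * L v) ∨
    (∀ z : ℂ, z ≠ 0 → ∃ L : ℂ →+ ℂ, Semi k₂ ((starRingEnd ℂ) (rt k₂)) L ∧ Semi k₁ (rt k₁) L ∧
      (∀ x : ℝ, (L x).im = 0) ∧ L z ≠ 0 ∧ ∃ η : ℂ, ‖η‖ = 1 ∧ ∀ v, L (rt M * v) = η * L v) := by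
  have h1 : k₁ = 3 ∨ k₁ = 4 ∨ k₁ = 5 := by rcases h₁ with h | h | h | h | h <;> omega
  have h2 : k₂ = 3 ∨ k₂ = 4 ∨ k₂ = 5 := by rcases h₂ with h | h | h | h | h <;> omega
  rcases h1 with rfl | rfl | rfl <;> rcases h2 with rfl | rfl | rfl
  · exact absurd rfl hk
  · right; intro z hz
    exact exists_twist 2 4 3 M Nat.prime_two ⟨2, by norm_num⟩ (by norm_num) (by norm_num) hM z hz
  · left; intro z hz
    exact exists_twist 3 3 5 M Nat.prime_three ⟨1, by norm_num⟩ (by norm_num) (by norm_num) hM z hz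
  · left; intro z hz
    exact exists_twist 2 4 3 M Nat.prime_two ⟨2, by norm_num⟩ (by norm_num) (by norm_num) hM z hz
  · exact absurd rfl hk
  · left; intro z hz
    exact exists_twist 2 4 5 M Nat.prime_two ⟨2, by norm_num⟩ (by norm_num) (by norm_num) hM z hz
  · right; intro z hz
    exact exists_twist 3 3 5 M Nat.prime_three ⟨1, by norm_num⟩ (by norm_num) (by norm_num) hM z hz
  · right; intro z hz
    exact exists_twist 2 4 5 M Nat.prime_two ⟨2, by norm_num⟩ (by norm_num) (by norm_num) hM z hz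
  · exact absurd rfl hk

section

variable {k₁ N₁ k₂ N₂ : ℕ} {S₁ : Surface k₁ N₁} {S₂ : Surface k₂ N₂} {s₁ s₂ : ℝ}

/-- The contradiction of signs. -/
lemma sign_contradiction {n : ℕ} {p : ZMod n → ℂ} [NeZero n] [NeZero k₁] [NeZero k₂]
    (hk₁ : 2 ≤ k₁) (hk₂ : 2 ≤ k₂) (hN₁ : 0 < N₁) (hs₁ : s₁ ≠ 0)
    {T₁ : Type} [Fintype T₁] [DecidableEq T₁] {q₁ : T₁ → ZMod 3 → ℂ} {Θ₁ : Triangulation p q₁}
    (hc₁ : Θ₁.Connected) (F₁ : Folding S₁ s₁ Θ₁)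
    {T₂ : Type} [Fintype T₂] [DecidableEq T₂] {q₂ : T₂ → ZMod 3 → ℂ} {Θ₂ : Triangulation p q₂}
    (hc₂ : Θ₂.Connected) (F₂ : Folding S₂ s₂ Θ₂)
    (t₁ : T₁) (L : ℂ →+ ℂ) (hL₁ : Semi k₁ ((starRingEnd ℂ) (rt k₁)) L) (hL₂ : Semi k₂ (rt k₂) L)
    (hz : L (s₁ / F₁.rot t₁) ≠ 0)
    (heq : ∑ e : T₁ × ZMod 3, cross (L (q₁ e.1 e.2)) (L (q₁ e.1 (e.2 + 1)))
      = ∑ e : T₂ × ZMod 3, cross (L (q₂ e.1 e.2)) (L (q₂ e.1 (e.2 + 1)))) : False := by
  have hne₁ := nonempty_of_triangulation Θ₁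
  have hne₂ := nonempty_of_triangulation Θ₂
  have f1 := net_formula hk₁ hL₁ (by rw [RCLike.norm_conj, norm_rt]) F₁ hc₁ t₁
  have f2 := net_formula hk₂ hL₂ (norm_rt k₂) F₂ hc₂ (Classical.arbitrary T₂)
  rw [heq, f2, Ck_conj] at f1
  have c1 := Ck_pos hk₁ F₁ hc₁
  have c2 := Ck_pos hk₂ F₂ hc₂
  have hN : (0 : ℝ) < N₁ := by exact_mod_cast hN₁
  have hpos : 0 < ‖L (s₁ / F₁.rot t₁)‖ ^ 2 := by positivity
  have e1 : (N₁ : ℝ) * (-Ck k₁ (rt k₁) * ‖L (s₁ / F₁.rot t₁)‖ ^ 2) < 0 := by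
    have : 0 < (N₁ : ℝ) * (Ck k₁ (rt k₁) * ‖L (s₁ / F₁.rot t₁)‖ ^ 2) := by positivity
    linarith
  have e2 : 0 ≤ (N₂ : ℝ) * (Ck k₂ (rt k₂) *
      ‖L (s₂ / F₂.rot (Classical.arbitrary T₂))‖ ^ 2) := by positivity
  linarith

end

/-- **Theorem.** -/
theorem no_common_net {k₁ N₁ k₂ N₂ : ℕ} (h₁ : IsPlatonic k₁ N₁) (h₂ : IsPlatonic k₂ N₂)
    (hne : (k₁, N₁) ≠ (k₂, N₂)) (S₁ : Surface k₁ N₁) (S₂ : Surface k₂ N₂) (s₁ s₂ : ℝ)
    (hs₁ : 0 < s₁) (hs₂ : 0 < s₂) {n : ℕ} (hn : 0 < n) (p : ZMod n → ℂ) :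
    ¬ IsCommonTriangulatedNet S₁ s₁ S₂ s₂ p ∧
    (k₁ ≠ k₂ → RationalAngles p → ¬ (IsNet S₁ s₁ p ∧ IsNet S₂ s₂ p)) ∧
    (TriangularAngles p → ¬ (IsNet S₁ s₁ p ∧ IsNet S₂ s₂ p)) := by
  have : NeZero n := ⟨hn.ne'⟩
  obtain ⟨hk₁, hN₁⟩ := platonic_two_le h₁
  obtain ⟨hk₂, hN₂⟩ := platonic_two_le h₂
  have : NeZero k₁ := ⟨by omega⟩
  have : NeZero k₂ := ⟨by omega⟩
  have hs₁' : (s₁ : ℂ) ≠ 0 := by exact_mod_cast hs₁.ne'
  have hs₂' : (s₂ : ℂ) ≠ 0 := by exact_mod_cast hs₂.ne'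
  -- the case of equal faces
  have same : ∀ (hk : k₁ = k₂) {T₁ : Type} [Fintype T₁] [DecidableEq T₁] {q₁ : T₁ → ZMod 3 → ℂ}
      {Θ₁ : Triangulation p q₁} (_ : Θ₁.Connected) (F₁ : Folding S₁ s₁ Θ₁)
      {T₂ : Type} [Fintype T₂] [DecidableEq T₂] {q₂ : T₂ → ZMod 3 → ℂ} {Θ₂ : Triangulation p q₂}
      (_ : Θ₂.Connected) (F₂ : Folding S₂ s₂ Θ₂) (w : ℂ) (_ : w ≠ 0),
      (∀ L : ℂ →+ ℂ, Semi 3 (rt 3) L → (∀ x : ℝ, (L x).im = 0) →
        ∑ e : T₁ × ZMod 3, cross (frame L w (q₁ e.1 e.2)) (frame L w (q₁ e.1 (e.2 + 1)))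
        = ∑ e : T₂ × ZMod 3, cross (frame L w (q₂ e.1 e.2)) (frame L w (q₂ e.1 (e.2 + 1))))
      → False := by
    intro hk T₁ _ _ q₁ Θ₁ hc₁ F₁ T₂ _ _ q₂ Θ₂ hc₂ F₂ w hw heq
    have hk3 : k₁ = 3 ∧ (N₁ = 4 ∨ N₁ = 8 ∨ N₁ = 20) ∧ (N₂ = 4 ∨ N₂ = 8 ∨ N₂ = 20) ∧ N₁ ≠ N₂ := by
      have hne' : N₁ ≠ N₂ := by rintro rfl; exact hne (by rw [hk])
      rcases h₁ with h | h | h | h | h <;> rcases h₂ with h' | h' | h' | h' | h' <;> omega
    obtain ⟨h3, hN1, hN2, hNne⟩ := hk3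
    subst h3
    subst hk
    have hne₁ := nonempty_of_triangulation Θ₁
    have hne₂ := nonempty_of_triangulation Θ₂
    set t₁ := Classical.arbitrary T₁
    set t₂ := Classical.arbitrary T₂
    set z : ℂ := w⁻¹ * (s₁ / F₁.rot t₁) with hzdef
    have hz : z ≠ 0 := mul_ne_zero (inv_ne_zero hw) (div_ne_zero hs₁' (rot_ne F₁ t₁))
    obtain ⟨L, hL1, hL2, hL3, hL4⟩ := exists_rational z hz
    have f1 := net_formula hk₁ (frame_semi hL1 w) (norm_rt 3) F₁ hc₁ t₁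
    have f2 := net_formula hk₂ (frame_semi hL1 w) (norm_rt 3) F₂ hc₂ t₂
    rw [heq L hL1 hL2, f2] at f1
    have c1 := Ck_pos hk₁ F₁ hc₁
    rw [frame_apply, frame_apply] at f1
    obtain ⟨a, b, hab⟩ := hL4 (w⁻¹ * (s₁ / F₁.rot t₁))
    obtain ⟨c, d, hcd⟩ := hL4 (w⁻¹ * (s₂ / F₂.rot t₂))
    rw [hab, hcd] at f1
    have f3 : (N₁ : ℝ) * ((a ^ 2 - a * b + b ^ 2 : ℚ) : ℝ)
        = N₂ * ((c ^ 2 - c * d + d ^ 2 : ℚ) : ℝ) := by
      have : Ck 3 (rt 3) * ((N₁ : ℝ) * ((a ^ 2 - a * b + b ^ 2 : ℚ) : ℝ))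
          = Ck 3 (rt 3) * (N₂ * ((c ^ 2 - c * d + d ^ 2 : ℚ) : ℝ)) := by linarith
      exact mul_left_cancel₀ c1.ne' this
    have f4 : (N₁ : ℚ) * (a ^ 2 - a * b + b ^ 2) = N₂ * (c ^ 2 - c * d + d ^ 2) := by
      exact_mod_cast f3
    have f5 := norm_obstruction N₁ N₂ hN1 hN2 hNne a b c d f4
    rw [f5] at hab
    apply hL3
    have : ‖L z‖ ^ 2 = 0 := by rw [hzdef, hab]; simp
    exact norm_eq_zero.mp (pow_eq_zero_iff (by norm_num) |>.mp this)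
  -- the case of different faces
  have diff : ∀ (_ : k₁ ≠ k₂) (M : ℕ) (_ : 0 < M) {T₁ : Type} [Fintype T₁] [DecidableEq T₁]
      {q₁ : T₁ → ZMod 3 → ℂ}
      {Θ₁ : Triangulation p q₁} (_ : Θ₁.Connected) (F₁ : Folding S₁ s₁ Θ₁)
      {T₂ : Type} [Fintype T₂] [DecidableEq T₂] {q₂ : T₂ → ZMod 3 → ℂ} {Θ₂ : Triangulation p q₂}
      (_ : Θ₂.Connected) (F₂ : Folding S₂ s₂ Θ₂) (w : ℂ) (_ : w ≠ 0),
      (∀ L : ℂ →+ ℂ, (∀ x : ℝ, (L x).im = 0) →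
        (∃ η : ℂ, ‖η‖ = 1 ∧ ∀ v, L (rt M * v) = η * L v) →
        ∑ e : T₁ × ZMod 3, cross (frame L w (q₁ e.1 e.2)) (frame L w (q₁ e.1 (e.2 + 1)))
        = ∑ e : T₂ × ZMod 3, cross (frame L w (q₂ e.1 e.2)) (frame L w (q₂ e.1 (e.2 + 1))))
      → False := by
    intro hk M hM T₁ _ _ q₁ Θ₁ hc₁ F₁ T₂ _ _ q₂ Θ₂ hc₂ F₂ w hw heq
    have hne₁ := nonempty_of_triangulation Θ₁
    have hne₂ := nonempty_of_triangulation Θ₂
    set t₁ := Classical.arbitrary T₁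
    set t₂ := Classical.arbitrary T₂
    rcases twist_pair h₁ h₂ hk M hM with h | h
    · obtain ⟨L, hL1, hL2, hL3, hL4, hL5⟩ := h (w⁻¹ * (s₁ / F₁.rot t₁))
        (mul_ne_zero (inv_ne_zero hw) (div_ne_zero hs₁' (rot_ne F₁ t₁)))
      exact sign_contradiction hk₁ hk₂ hN₁ hs₁.ne' hc₁ F₁ hc₂ F₂ t₁ (frame L w)
        (frame_semi hL1 w) (frame_semi hL2 w) hL4 (heq L hL3 hL5)
    · obtain ⟨L, hL1, hL2, hL3, hL4, hL5⟩ := h (w⁻¹ * (s₂ / F₂.rot t₂))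
        (mul_ne_zero (inv_ne_zero hw) (div_ne_zero hs₂' (rot_ne F₂ t₂)))
      exact sign_contradiction hk₂ hk₁ hN₂ hs₂.ne' hc₂ F₂ hc₁ F₁ t₂ (frame L w)
        (frame_semi hL1 w) (frame_semi hL2 w) hL4 (heq L hL3 hL5).symm
  refine ⟨?_, ?_, ?_⟩
  · rintro ⟨T, _, _, q, Θ, hc, ⟨F₁⟩, ⟨F₂⟩⟩
    by_cases hk : k₁ = k₂
    · exact same hk hc F₁ hc F₂ 1 one_ne_zero (fun _ _ _ => rfl)
    · exact diff hk 1 one_pos hc F₁ hc F₂ 1 one_ne_zero (fun _ _ _ => rfl)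
  · rintro hk ⟨u, hu, hdir⟩ ⟨⟨T₁, _, _, q₁, Θ₁, hc₁, ⟨F₁⟩⟩, ⟨T₂, _, _, q₂, Θ₂, hc₂, ⟨F₂⟩⟩⟩
    choose r x hrx using hdir
    set M := ∏ j, (2 * (r j).den) with hM
    have hMpos : 0 < M := Finset.prod_pos (fun j _ => by have := (r j).den_pos; omega)
    apply diff hk M hMpos hc₁ F₁ hc₂ F₂ u hu
    intro L hreal hη
    obtain ⟨η, hη1, hη2⟩ := hη
    have hflat : ∀ (j : ZMod n) (a b : ℝ),
        cross (frame L u (a * (p (j + 1) - p j))) (frame L u (b * (p (j + 1) - p j))) = 0 := by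
      intro j a b
      rw [hrx j]
      obtain ⟨h, hh⟩ := exp_rational (r j)
      rw [hh]
      have hdvd : 2 * (r j).den ∣ M := Finset.dvd_prod_of_mem _ (Finset.mem_univ j)
      rw [← rt_dvd hMpos hdvd, ← pow_mul]
      exact flat_of hreal (by rw [norm_pow, hη1, one_pow]) (pow_map hη2 _) hu (x j) a b
    rw [polygon_formula Θ₁ (frame L u) hflat, polygon_formula Θ₂ (frame L u) hflat]
  · rintro ⟨u, hu, hdir⟩ ⟨⟨T₁, _, _, q₁, Θ₁, hc₁, ⟨F₁⟩⟩, ⟨T₂, _, _, q₂, Θ₂, hc₂, ⟨F₂⟩⟩⟩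
    choose r x hrx using hdir
    have hflat : ∀ (L : ℂ →+ ℂ) (_ : ∀ x : ℝ, (L x).im = 0) (η : ℂ) (_ : ‖η‖ = 1)
        (_ : ∀ v, L (rt 3 * v) = η * L v) (j : ZMod n) (a b : ℝ),
        cross (frame L u (a * (p (j + 1) - p j))) (frame L u (b * (p (j + 1) - p j))) = 0 := by
      intro L hreal η hη1 hη2 j a b
      rw [hrx j]
      obtain ⟨h, c, hh⟩ := exp_third (r j)
      rw [hh]
      have := flat_of hreal (by rw [norm_pow, hη1, one_pow]) (pow_map hη2 h) hu (x j * c) a b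
      rw [← this]
      congr 2 <;> push_cast <;> ring
    by_cases hk : k₁ = k₂
    · apply same hk hc₁ F₁ hc₂ F₂ u hu
      intro L hsemi hreal
      rw [polygon_formula Θ₁ (frame L u) (hflat L hreal (rt 3) (norm_rt 3) hsemi),
        polygon_formula Θ₂ (frame L u) (hflat L hreal (rt 3) (norm_rt 3) hsemi)]
    · apply diff hk 3 (by norm_num) hc₁ F₁ hc₂ F₂ u hu
      intro L hreal hη
      obtain ⟨η, hη1, hη2⟩ := hη
      rw [polygon_formula Θ₁ (frame L u) (hflat L hreal η hη1 hη2),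
        polygon_formula Θ₂ (frame L u) (hflat L hreal η hη1 hη2)]

end Pool.Agent.H110.Net
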