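import Pool.Agent.H110.NetCore

/-!
# The area form of a net
-/

set_option autoImplicit false

namespace Pool.Agent.H110.Net

open Complex

/-- the area form of the regular `k`-gon with unit side, twisted by `η` -/
noncomputable def Ck (k : ℕ) [NeZero k] (η : ℂ) : ℝ :=
  ∑ j : ZMod k, cross (∑ i ∈ Finset.range j.val, η ^ i) (∑ i ∈ Finset.range (j + 1).val, η ^ i)

lemma cross_conj (a b : ℂ) : cross ((starRingEnd ℂ) a) ((starRingEnd ℂ) b) = - cross a b := by
  simp [cross, Complex.mul_im]; ring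

lemma Ck_conj (k : ℕ) [NeZero k] (η : ℂ) : Ck k ((starRingEnd ℂ) η) = - Ck k η := by
  unfold Ck
  rw [← Finset.sum_neg_distrib]
  apply Finset.sum_congr rfl
  intro j _
  rw [← cross_conj, map_sum, map_sum]
  simp

section

variable {k N : ℕ} {S : Surface k N} {s : ℝ} {n : ℕ} {p : ZMod n → ℂ} {T : Type}
    [Fintype T] [DecidableEq T] {q : T → ZMod 3 → ℂ} {Θ : Triangulation p q}

lemma faceForm_eq [NeZero k] {η : ℂ} {M : ℂ →+ ℂ} (h : Semi k η M) :
    faceForm k s M = Ck k η * ‖M (s : ℂ)‖ ^ 2 := by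
  unfold faceForm Ck
  rw [Finset.sum_mul]
  apply Finset.sum_congr rfl
  intro j _
  have e : ∀ j : ZMod k, M (corner k s j) = M (s : ℂ) * ∑ i ∈ Finset.range j.val, η ^ i := by
    intro j
    unfold corner
    rw [Finset.mul_sum, map_sum, Finset.mul_sum]
    apply Finset.sum_congr rfl
    intro i _
    have := h.pow i (s : ℂ)
    unfold rt at this
    rw [mul_comm (s : ℂ), this]; ring
  rw [e, e, cross_mul]; ring

/-- the map seen from the frame of the triangle `t` -/
noncomputable def frame (L : ℂ →+ ℂ) (u : ℂ) : ℂ →+ ℂ := L.comp (AddMonoidHom.mulLeft u⁻¹)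

lemma frame_apply (L : ℂ →+ ℂ) (u v : ℂ) : frame L u v = L (u⁻¹ * v) := rfl

lemma frame_semi {η : ℂ} {L : ℂ →+ ℂ} (h : Semi k η L) (u : ℂ) : Semi k η (frame L u) := by
  intro v
  rw [frame_apply, frame_apply, ← h]
  congr 1; ring

lemma rot_ne (F : Folding S s Θ) (t : T) : F.rot t ≠ 0 := by
  intro h
  have := F.norm_rot t
  rw [h, norm_zero] at this
  exact zero_ne_one this

lemma edge_ne (Θ : Triangulation p q) (t : T) (i : ZMod 3) : q t i ≠ q t (i + 1) := by
  intro h
  have hp := Θ.pos t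
  unfold area at hp
  fin_cases i
  · change q t 0 = q t 1 at h
    rw [h, cross_self, cross_comm (q t 2) (q t 1)] at hp
    linarith
  · change q t 1 = q t 2 at h
    rw [h, cross_self, cross_comm (q t 2) (q t 0)] at hp
    linarith
  · change q t 2 = q t 0 at h
    rw [h, cross_self, cross_comm (q t 1) (q t 0)] at hp
    linarith

lemma rt_ne (k : ℕ) : rt k ≠ 0 := exp_ne_zero _

/-- Neighbouring triangles have frames which differ by a root of unity. -/
lemma frame_step (hk : 2 ≤ k) {η : ℂ} {L : ℂ →+ ℂ} (h : Semi k η L) (hη : ‖η‖ = 1)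
    (F : Folding S s Θ) {t t' : T} {i i' : ZMod 3} (hm : Θ.mate (t, i) = some (t', i')) :
    ∃ ε : ℂ, ‖ε‖ = 1 ∧ ∀ v, frame L (F.rot t') v = ε * frame L (F.rot t) v := by
  have hn := F.mate_nbr _ _ hm
  obtain ⟨hq1, hq2⟩ := Θ.mate_eq _ _ hm
  simp only at hq1 hq2
  have hd : q t (i + 1) - q t i ≠ 0 := sub_ne_zero.mpr (edge_ne Θ t i).symm
  have hη0 : η ≠ 0 := by intro h0; rw [h0, norm_zero] at hη; exact zero_ne_one hη
  have e1 : F.loc t (i + 1) - F.loc t i = F.rot t * (q t (i + 1) - q t i) := by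
    rw [F.loc_eq, F.loc_eq]; ring
  have e2 : F.loc t' (i' + 1) - F.loc t' i' = - (F.rot t' * (q t (i + 1) - q t i)) := by
    rw [F.loc_eq, F.loc_eq, hq1, hq2]; ring
  rcases Bool.eq_false_or_eq_true (F.onSide (t, i)) with ho | ho
  · obtain ⟨-, hlt, -, h1, h2⟩ := F.outer _ ho
    obtain ⟨ho', -, hlo, hhi⟩ := F.outer_nbr _ ho
    obtain ⟨-, -, -, h3, h4⟩ := F.outer _ ho'
    rw [hn] at hlo hhi h3 h4
    simp only at h1 h2 h3 h4
    set j := F.side (t, i)
    set j' := F.side (t', i')
    have e3 : F.loc t (i + 1) - F.loc t i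
        = ((F.hi (t, i) - F.lo (t, i) : ℝ) : ℂ) * (s * rt k ^ j.val) := by
      rw [h1, h2]; unfold sidePoint; rw [corner_succ k hk]; push_cast; ring
    have e4 : F.loc t' (i' + 1) - F.loc t' i'
        = ((F.hi (t, i) - F.lo (t, i) : ℝ) : ℂ) * (s * rt k ^ j'.val) := by
      rw [h3, h4, hlo, hhi]; unfold sidePoint; rw [corner_succ k hk]; push_cast; ring
    rw [e1] at e3
    rw [e2] at e4
    -- rot t' * rt ^ j = - rot t * rt ^ j'
    have e5 : F.rot t' * rt k ^ j.val = - (F.rot t * rt k ^ j'.val) := by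
      have : (F.rot t' * rt k ^ j.val) * (q t (i + 1) - q t i)
          = - (F.rot t * rt k ^ j'.val) * (q t (i + 1) - q t i) := by
        linear_combination (-(rt k ^ j.val)) * e4 + (rt k ^ j'.val) * e3
      exact mul_right_cancel₀ hd this
    refine ⟨- (η ^ j.val * (η ^ j'.val)⁻¹), ?_, ?_⟩
    · rw [norm_neg, norm_mul, norm_inv, norm_pow, norm_pow, hη]; simp
    · intro v
      rw [frame_apply, frame_apply]
      have e6 : η ^ j'.val * L ((F.rot t')⁻¹ * v) = - (η ^ j.val * L ((F.rot t)⁻¹ * v)) := by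
        rw [← h.pow, ← h.pow, ← map_neg]
        congr 1
        have ht := rot_ne F t
        have ht' := rot_ne F t'
        field_simp
        linear_combination v * e5
      have hj : η ^ j'.val ≠ 0 := pow_ne_zero _ hη0
      calc L ((F.rot t')⁻¹ * v) = (η ^ j'.val)⁻¹ * (η ^ j'.val * L ((F.rot t')⁻¹ * v)) := by
            rw [inv_mul_cancel_left₀ hj]
        _ = -(η ^ j.val * (η ^ j'.val)⁻¹) * L ((F.rot t)⁻¹ * v) := by rw [e6]; ring
  · obtain ⟨-, h1, h2⟩ := F.inner _ ho
    rw [hn] at h1 h2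
    simp only at h1 h2
    have e3 : F.rot t' = F.rot t := by
      have : F.rot t' * (q t (i + 1) - q t i) = F.rot t * (q t (i + 1) - q t i) := by
        rw [← e1]
        have : F.loc t' (i' + 1) - F.loc t' i' = F.loc t i - F.loc t (i + 1) := by rw [h1, h2]
        rw [e2] at this
        linear_combination (-1) * this
      exact mul_right_cancel₀ hd this
    exact ⟨1, by simp, fun v => by rw [e3]; ring⟩

lemma frame_all (hk : 2 ≤ k) {η : ℂ} {L : ℂ →+ ℂ} (h : Semi k η L) (hη : ‖η‖ = 1)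
    (F : Folding S s Θ) (hΘ : Θ.Connected) (t t' : T) :
    ∃ ε : ℂ, ‖ε‖ = 1 ∧ ∀ v, frame L (F.rot t') v = ε * frame L (F.rot t) v := by
  have hc := hΘ t t'
  induction hc with
  | refl => exact ⟨1, by simp, fun v => by ring⟩
  | tail _ hstep ih =>
    obtain ⟨i, j, hm⟩ := hstep
    obtain ⟨ε, h1, h2⟩ := ih
    obtain ⟨ε', h3, h4⟩ := frame_step hk h hη F hm
    exact ⟨ε' * ε, by rw [norm_mul, h1, h3, one_mul], fun v => by rw [h4, h2]; ring⟩

/-- **The area form of a net.** -/
lemma net_formula [NeZero k] (hk : 2 ≤ k) {η : ℂ} {L : ℂ →+ ℂ} (h : Semi k η L) (hη : ‖η‖ = 1)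
    (F : Folding S s Θ) (hΘ : Θ.Connected) (t₀ : T) :
    ∑ e : T × ZMod 3, cross (L (q e.1 e.2)) (L (q e.1 (e.2 + 1)))
      = N * (Ck k η * ‖L (s / F.rot t₀)‖ ^ 2) := by
  set M := frame L (F.rot t₀) with hM
  have h1 := sum_loc hk (frame_semi h (F.rot t₀)) hη F
  rw [faceForm_eq (frame_semi h (F.rot t₀)), frame_apply] at h1
  have e0 : (F.rot t₀)⁻¹ * (s : ℂ) = s / F.rot t₀ := by rw [div_eq_mul_inv]; ring
  rw [e0] at h1
  rw [← h1, Fintype.sum_prod_type, Fintype.sum_prod_type]
  apply Finset.sum_congr rfl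
  intro t _
  simp only
  obtain ⟨ε, hε, hf⟩ := frame_all hk h hη F hΘ t₀ t
  have e1 : ∀ i, L (q t i) = ε * M (F.loc t i) + (- (ε * M (F.shift t))) := by
    intro i
    have : q t i = (F.rot t)⁻¹ * (F.loc t i - F.shift t) := by
      rw [F.loc_eq]
      have := rot_ne F t
      field_simp; ring
    rw [this, ← frame_apply, hf, map_sub]; ring
  simp_rw [e1]
  rw [cyc_translate (fun i => ε * M (F.loc t i)) (- (ε * M (F.shift t)))]
  apply Finset.sum_congr rfl
  intro i _
  rw [cross_mul, hε]; ring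

/-- The area form of a triangulated polygon depends only on the polygon, if the map is flat on the
sides of the polygon. -/
lemma polygon_formula [NeZero n] (Θ : Triangulation p q) (L : ℂ →+ ℂ)
    (hL : ∀ (j : ZMod n) (x y : ℝ),
      cross (L (x * (p (j + 1) - p j))) (L (y * (p (j + 1) - p j))) = 0) :
    ∑ e : T × ZMod 3, cross (L (q e.1 e.2)) (L (q e.1 (e.2 + 1)))
      = ∑ j : ZMod n, cross (L (p j)) (L (p (j + 1))) := by
  set V : T × ZMod 3 → ℝ := fun e => cross (L (q e.1 e.2)) (L (q e.1 (e.2 + 1))) with hV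
  have h1 : ∑ e ∈ Finset.univ.filter (fun e => ¬ Θ.mate e = none), V e = 0 := by
    apply Finset.sum_involution (fun e _ => (Θ.mate e).getD e)
    · intro e he
      rw [Finset.mem_filter] at he
      obtain ⟨e', he'⟩ := Option.ne_none_iff_exists'.mp he.2
      rw [he']
      simp only [Option.getD_some]
      obtain ⟨h1, h2⟩ := Θ.mate_eq _ _ he'
      simp only [hV]
      rw [h1, h2, cross_comm (L (q e.1 (e.2 + 1)))]
      ring
    · intro e he _
      rw [Finset.mem_filter] at he
      obtain ⟨e', he'⟩ := Option.ne_none_iff_exists'.mp he.2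
      rw [he']
      simp only [Option.getD_some]
      exact Θ.mate_ne _ _ he'
    · intro e he
      rw [Finset.mem_filter] at he
      obtain ⟨e', he'⟩ := Option.ne_none_iff_exists'.mp he.2
      rw [he']
      simp only [Option.getD_some]
      rw [Finset.mem_filter]
      refine ⟨Finset.mem_univ _, ?_⟩
      rw [Θ.mate_symm _ _ he']
      simp
    · intro e he
      rw [Finset.mem_filter] at he
      obtain ⟨e', he'⟩ := Option.ne_none_iff_exists'.mp he.2
      simp only [he', Option.getD_some]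
      rw [Θ.mate_symm _ _ he']
      simp
  have h2 := Finset.sum_filter_add_sum_filter_not Finset.univ (fun e => Θ.mate e = none) V
  rw [h1, add_zero] at h2
  rw [← h2]
  rw [← Finset.sum_fiberwise_of_maps_to (s := Finset.univ.filter (fun e => Θ.mate e = none))
    (t := (Finset.univ : Finset (ZMod n))) (g := Θ.side) (fun _ _ => Finset.mem_univ _)]
  apply Finset.sum_congr rfl
  intro j _
  rw [Finset.filter_filter]
  have h3 : ∀ e ∈ Finset.univ.filter (fun e => Θ.mate e = none ∧ Θ.side e = j),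
      V e = cross (L (p j)) (L (((Θ.hi e - Θ.lo e : ℝ) : ℂ) * (p (j + 1) - p j))) := by
    intro e he
    rw [Finset.mem_filter] at he
    obtain ⟨-, -, -, h4, h5⟩ := Θ.on_side e he.2.1
    simp only [hV]
    rw [h4, h5, he.2.2]
    unfold sidePoint
    rw [map_add, map_add, cross_add_left, cross_add_right, cross_add_right, cross_self, hL,
      cross_comm (L ((Θ.lo e : ℂ) * (p (j + 1) - p j))) (L (p j))]
    have : (((Θ.hi e - Θ.lo e : ℝ) : ℂ) * (p (j + 1) - p j))
        = (Θ.hi e : ℂ) * (p (j + 1) - p j) - (Θ.lo e : ℂ) * (p (j + 1) - p j) := by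
      push_cast; ring
    rw [this, map_sub, cross_sub_right]; ring
  rw [Finset.sum_congr rfl h3, ← cross_sum_right, ← map_sum, ← Finset.sum_mul]
  have h6 : ∑ e ∈ Finset.univ.filter (fun e => Θ.mate e = none ∧ Θ.side e = j),
      ((Θ.hi e - Θ.lo e : ℝ) : ℂ) = 1 := by
    have := Θ.fill j
    rw [← Complex.ofReal_sum, this]; simp
  rw [h6, one_mul, map_sub, cross_sub_right, cross_self, sub_zero]

/-- The area of a triangulated region is positive. -/
lemma area_pos (Θ : Triangulation p q) [Nonempty T] :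
    0 < ∑ e : T × ZMod 3, cross (q e.1 e.2) (q e.1 (e.2 + 1)) := by
  rw [Fintype.sum_prod_type]
  apply Finset.sum_pos _ Finset.univ_nonempty
  intro t _
  have := Θ.pos t
  unfold area at this
  have e : ∑ i : ZMod 3, cross (q t i) (q t (i + 1))
      = cross (q t 0) (q t 1) + cross (q t 1) (q t 2) + cross (q t 2) (q t 0) := by
    have hu : (Finset.univ : Finset (ZMod 3)) = {0, 1, 2} := by decide
    rw [hu, Finset.sum_insert (by decide), Finset.sum_insert (by decide), Finset.sum_singleton,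
      show (0 : ZMod 3) + 1 = 1 from rfl, show (1 : ZMod 3) + 1 = 2 from rfl,
      show (2 : ZMod 3) + 1 = 0 from rfl]
    ring
  simp only
  rw [e]; linarith

lemma nonempty_of_triangulation [NeZero n] (Θ : Triangulation p q) : Nonempty T := by
  by_contra hT
  rw [not_nonempty_iff] at hT
  have := Θ.fill 0
  rw [Finset.sum_eq_zero] at this
  · exact zero_ne_one this
  · intro e _
    exact (hT.false e.1).elim

lemma Ck_pos [NeZero k] (hk : 2 ≤ k) (F : Folding S s Θ) (hΘ : Θ.Connected) [Nonempty T] :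
    0 < Ck k (rt k) := by
  have h1 := area_pos Θ
  have hn : ‖rt k‖ = 1 := by
    unfold rt
    rw [show (2 * (Real.pi : ℂ) * I / k) = ((2 * Real.pi / k : ℝ) : ℂ) * I by push_cast; ring]
    exact Complex.norm_exp_ofReal_mul_I _
  have hs : Semi k (rt k) (AddMonoidHom.id ℂ) := fun v => rfl
  have h2 := net_formula hk hs hn F hΘ (Classical.arbitrary T)
  simp only [AddMonoidHom.id_apply] at h2
  rw [h2] at h1
  by_contra hc
  push Not at hc
  have : Ck k (rt k) * ‖(s : ℂ) / F.rot (Classical.arbitrary T)‖ ^ 2 ≤ 0 :=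
    mul_nonpos_of_nonpos_of_nonneg hc (by positivity)
  have : (N : ℝ) * (Ck k (rt k) * ‖(s : ℂ) / F.rot (Classical.arbitrary T)‖ ^ 2) ≤ 0 :=
    mul_nonpos_of_nonneg_of_nonpos (by positivity) this
  linarith

end

end Pool.Agent.H110.Net
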