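import Pool.Agent.H110.NetMain

/-!
# Wild additive maps of the plane
-/

set_option autoImplicit false

namespace Pool.Agent.H110.Net

open Complex Polynomial IntermediateField

lemma rt_prim (m : ℕ) (hm : 0 < m) : IsPrimitiveRoot (rt m) m :=
  Complex.isPrimitiveRoot_exp m hm.ne'

lemma norm_rt (m : ℕ) : ‖rt m‖ = 1 := by
  unfold rt
  rw [show (2 * (Real.pi : ℂ) * I / m) = ((2 * Real.pi / m : ℝ) : ℂ) * I by push_cast; ring]
  exact Complex.norm_exp_ofReal_mul_I _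

lemma rt_dvd {d m : ℕ} (hm : 0 < m) (hd : d ∣ m) : rt m ^ (m / d) = rt d := by
  obtain ⟨c, rfl⟩ := hd
  have hd0 : 0 < d := Nat.pos_of_mul_pos_right hm
  have hc0 : 0 < c := Nat.pos_of_mul_pos_left hm
  rw [Nat.mul_div_cancel_left c hd0]
  unfold rt
  rw [← Complex.exp_nat_mul]
  congr 1
  have h1 : (d : ℂ) ≠ 0 := by exact_mod_cast hd0.ne'
  have h2 : (c : ℂ) ≠ 0 := by exact_mod_cast hc0.ne'
  push_cast
  field_simp

/-- an additive map, semilinear for all roots of unity of order dividing `m` -/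
lemma exists_semi (m a : ℕ) (hm : 0 < m) (ha : a.Coprime m) (z : ℂ) (hz : z ≠ 0) :
    ∃ L : ℂ →+ ℂ, (∀ v, L (rt m * v) = rt m ^ a * L v) ∧ (∀ x : ℝ, (L x).im = 0) ∧ L z ≠ 0 := by
  have hprim := rt_prim m hm
  have hint : IsIntegral ℚ (rt m) := (hprim.isIntegral hm).tower_top
  let pb := adjoin.powerBasis hint
  have hgen : minpoly ℚ pb.gen = cyclotomic m ℚ := by
    have h1 : minpoly ℚ (algebraMap ℚ⟮rt m⟯ ℂ pb.gen) = minpoly ℚ pb.gen :=
      minpoly.algebraMap_eq (algebraMap ℚ⟮rt m⟯ ℂ).injective pb.gen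
    have h2 : algebraMap ℚ⟮rt m⟯ ℂ pb.gen = rt m := rfl
    rw [← h1, h2, cyclotomic_eq_minpoly_rat hprim hm]
  have haev : aeval (rt m ^ a) (minpoly ℚ pb.gen) = 0 := by
    rw [hgen]
    have h1 : IsPrimitiveRoot (rt m ^ a) m := hprim.pow_of_coprime a ha
    have h2 := h1.isRoot_cyclotomic hm
    rw [aeval_def, ← eval_map, map_cyclotomic]
    exact h2
  let φ : ℚ⟮rt m⟯ →ₐ[ℚ] ℂ := pb.lift (rt m ^ a) haev
  have hφ : φ (AdjoinSimple.gen ℚ (rt m)) = rt m ^ a := pb.lift_gen _ haev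
  obtain ⟨g, hg⟩ := Module.Projective.exists_dual_ne_zero ℚ⟮rt m⟯ hz
  let L0 : ℂ →+ ℂ := (φ : ℚ⟮rt m⟯ →+ ℂ).comp g.toAddMonoidHom
  have hL0 : ∀ v, L0 (rt m * v) = rt m ^ a * L0 v := by
    intro v
    change φ (g (rt m * v)) = rt m ^ a * φ (g v)
    have : rt m * v = (AdjoinSimple.gen ℚ (rt m)) • v := by
      rw [IntermediateField.smul_def, AdjoinSimple.coe_gen, smul_eq_mul]
    rw [this, map_smul, smul_eq_mul, map_mul, hφ]
  have hL0z : L0 z ≠ 0 := by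
    change φ (g z) ≠ 0
    intro h
    exact hg ((map_eq_zero φ).mp h)
  have hrt0 : rt m ≠ 0 := rt_ne m
  have hL0inv : ∀ v, L0 ((rt m)⁻¹ * v) = (rt m ^ a)⁻¹ * L0 v := by
    intro v
    have := hL0 ((rt m)⁻¹ * v)
    rw [mul_inv_cancel_left₀ hrt0] at this
    rw [this, inv_mul_cancel_left₀ (pow_ne_zero _ hrt0)]
  have hconj : (starRingEnd ℂ) (rt m) = (rt m)⁻¹ := by
    rw [Complex.inv_def, Complex.normSq_eq_norm_sq, norm_rt]; simp
  have hconj' : (starRingEnd ℂ) ((rt m ^ a)⁻¹) = rt m ^ a := by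
    rw [map_inv₀, map_pow, hconj]; simp
  let Lc : ℂ → (ℂ →+ ℂ) := fun c =>
    { toFun := fun v => c * L0 v + (starRingEnd ℂ) (c * L0 ((starRingEnd ℂ) v))
      map_zero' := by simp
      map_add' := by
        intro x y
        simp only [map_add, map_mul]
        ring }
  have hLc : ∀ c v, Lc c v = c * L0 v + (starRingEnd ℂ) (c * L0 ((starRingEnd ℂ) v)) :=
    fun c v => rfl
  have h1 : ∀ c v, Lc c (rt m * v) = rt m ^ a * Lc c v := by
    intro c v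
    rw [hLc, hLc, hL0, map_mul (starRingEnd ℂ) (rt m) v, hconj, hL0inv,
      map_mul (starRingEnd ℂ) c, map_mul (starRingEnd ℂ) (rt m ^ a)⁻¹, hconj',
      map_mul (starRingEnd ℂ) c]
    ring
  have h2 : ∀ c (x : ℝ), (Lc c x).im = 0 := by
    intro c x
    rw [hLc, Complex.conj_ofReal]
    simp
    ring
  have h3 : Lc 1 z ≠ 0 ∨ Lc I z ≠ 0 := by
    by_contra hcon
    push Not at hcon
    obtain ⟨e1, e2⟩ := hcon
    rw [hLc, one_mul, one_mul] at e1
    rw [hLc, map_mul, Complex.conj_I] at e2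
    apply hL0z
    have : 2 * I * L0 z = 0 := by linear_combination I * e1 + e2
    have h2I : (2 * I : ℂ) ≠ 0 := by simp
    exact (mul_eq_zero.mp this).resolve_left h2I
  rcases h3 with h | h
  · exact ⟨Lc 1, h1 1, h2 1, h⟩
  · exact ⟨Lc I, h1 I, h2 I, h⟩

/-- The twisted maps. -/
lemma exists_twist (ℓ k₁ k₂ M : ℕ) (hℓ : ℓ.Prime) (h1 : ∃ e, k₁ = ℓ ^ e) (h2 : ¬ ℓ ∣ k₂)
    (hk₂ : 0 < k₂) (hM : 0 < M) (z : ℂ) (hz : z ≠ 0) :
    ∃ L : ℂ →+ ℂ, Semi k₁ ((starRingEnd ℂ) (rt k₁)) L ∧ Semi k₂ (rt k₂) L ∧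
      (∀ x : ℝ, (L x).im = 0) ∧ L z ≠ 0 ∧ ∃ η : ℂ, ‖η‖ = 1 ∧ ∀ v, L (rt M * v) = η * L v := by
  have hk₁ : 0 < k₁ := by
    obtain ⟨e, rfl⟩ := h1
    exact pow_pos hℓ.pos e
  have hm : 0 < k₁ * k₂ * M := by positivity
  obtain ⟨f, B, hB, hfB⟩ := Nat.exists_eq_pow_mul_and_not_dvd hm.ne' ℓ hℓ.ne_one
  set m := k₁ * k₂ * M with hmdef
  have hB0 : 0 < B := by
    rcases Nat.eq_zero_or_pos B with h | h
    · rw [h, mul_zero] at hfB; omega
    · exact h
  have hcop : (ℓ ^ f).Coprime B := Nat.Coprime.pow_left f ((Nat.Prime.coprime_iff_not_dvd hℓ).mpr hB)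
  have hk₁f : k₁ ∣ ℓ ^ f := by
    have hd : k₁ ∣ ℓ ^ f * B := by rw [← hfB, hmdef]; exact ⟨k₂ * M, by ring⟩
    refine Nat.Coprime.dvd_of_dvd_mul_right ?_ hd
    obtain ⟨e, rfl⟩ := h1
    exact Nat.Coprime.pow_left e ((Nat.Prime.coprime_iff_not_dvd hℓ).mpr hB)
  have hk₂B : k₂ ∣ B := by
    have hd : k₂ ∣ ℓ ^ f * B := by rw [← hfB, hmdef]; exact ⟨k₁ * M, by ring⟩
    refine Nat.Coprime.dvd_of_dvd_mul_left ?_ hd
    exact (Nat.Coprime.pow_left f ((Nat.Prime.coprime_iff_not_dvd hℓ).mpr h2)).symm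
  have hpf : 0 < ℓ ^ f := pow_pos hℓ.pos f
  obtain ⟨a, ha1, ha2⟩ := Nat.chineseRemainder hcop (ℓ ^ f - 1) 1
  have hacop : a.Coprime m := by
    rw [hfB]
    apply Nat.Coprime.mul_right
    · have h3 : (ℓ ^ f - 1).Coprime (ℓ ^ f) := by
        have := Nat.coprime_self_add_right (m := ℓ ^ f - 1) (n := 1)
        rw [show ℓ ^ f - 1 + 1 = ℓ ^ f by omega] at this
        rw [this]; exact Nat.coprime_one_right _
      have h4 := ha1.gcd_eq
      unfold Nat.Coprime at h3 ⊢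
      rw [h4, h3]
    · have h4 := ha2.gcd_eq
      unfold Nat.Coprime
      rw [h4]; exact Nat.gcd_one_left _
  obtain ⟨L, hL1, hL2, hL3⟩ := exists_semi m a hm hacop z hz
  have hpow : ∀ (j : ℕ) v, L (rt m ^ j * v) = (rt m ^ j) ^ a * L v := by
    intro j
    induction j with
    | zero => intro v; simp
    | succ j ih => intro v; rw [pow_succ, mul_assoc, ih, hL1, mul_pow]; ring
  have hdiv : ∀ d, d ∣ m → ∀ v, L (rt d * v) = rt d ^ a * L v := by
    intro d hd v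
    rw [← rt_dvd hm hd]; exact hpow _ v
  refine ⟨L, ?_, ?_, hL2, hL3, rt M ^ a, ?_, ?_⟩
  · intro v
    rw [hdiv k₁ ⟨k₂ * M, by rw [hmdef]; ring⟩]
    congr 1
    have h5 : rt k₁ ^ (a + 1) = 1 := by
      have h6 : a + 1 ≡ 0 [MOD k₁] := by
        have h7 : a + 1 ≡ (ℓ ^ f - 1) + 1 [MOD ℓ ^ f] := ha1.add_right 1
        rw [show ℓ ^ f - 1 + 1 = ℓ ^ f by omega] at h7
        have h8 : a + 1 ≡ 0 [MOD ℓ ^ f] := h7.trans (by simp [Nat.ModEq])
        exact h8.of_dvd hk₁f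
      exact (rt_prim k₁ hk₁).pow_eq_one_iff_dvd _ |>.mpr ((Nat.modEq_zero_iff_dvd).mp h6)
    have h9 : (starRingEnd ℂ) (rt k₁) = (rt k₁)⁻¹ := by
      rw [Complex.inv_def, Complex.normSq_eq_norm_sq, norm_rt]; simp
    rw [h9]
    rw [pow_succ] at h5
    exact eq_inv_of_mul_eq_one_left h5
  · intro v
    rw [hdiv k₂ ⟨k₁ * M, by rw [hmdef]; ring⟩]
    congr 1
    have h6 : a ≡ 1 [MOD k₂] := ha2.of_dvd hk₂B
    have h7 := (rt_prim k₂ hk₂).pow_eq_one
    have h8 := pow_eq_pow_mod a h7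
    rw [h8, h6, ← pow_eq_pow_mod 1 h7, pow_one]
  · rw [norm_pow, norm_rt, one_pow]
  · exact hdiv M ⟨k₁ * k₂, by rw [hmdef]; ring⟩

lemma rt3 : rt 3 = -1 / 2 + (Real.sqrt 3 / 2 : ℝ) * I := by
  unfold rt
  rw [show (2 * (Real.pi : ℂ) * I / (3 : ℕ)) = ((2 * Real.pi / 3 : ℝ) : ℂ) * I by push_cast; ring,
    Complex.exp_mul_I, ← Complex.ofReal_cos, ← Complex.ofReal_sin]
  have h1 : Real.cos (2 * Real.pi / 3) = -1 / 2 := by
    rw [show 2 * Real.pi / 3 = Real.pi - Real.pi / 3 by ring, Real.cos_pi_sub, Real.cos_pi_div_three]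
    ring
  have h2 : Real.sin (2 * Real.pi / 3) = Real.sqrt 3 / 2 := by
    rw [show 2 * Real.pi / 3 = Real.pi - Real.pi / 3 by ring, Real.sin_pi_sub,
      Real.sin_pi_div_three]
  rw [h1, h2]; push_cast; ring

/-- a rational additive map, linear over `ℚ(ω)` -/
lemma exists_rational (z : ℂ) (hz : z ≠ 0) :
    ∃ L : ℂ →+ ℂ, Semi 3 (rt 3) L ∧ (∀ x : ℝ, (L x).im = 0) ∧ L z ≠ 0 ∧
      ∀ v, ∃ a b : ℚ, ‖L v‖ ^ 2 = ((a ^ 2 - a * b + b ^ 2 : ℚ) : ℝ) := by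
  have h3 : (0 : ℝ) < Real.sqrt 3 := by positivity
  have h33 : Real.sqrt 3 * Real.sqrt 3 = 3 := Real.mul_self_sqrt (by norm_num)
  -- coordinates
  set X : ℂ → ℝ := fun v => v.re + v.im / Real.sqrt 3 with hX
  set Y : ℂ → ℝ := fun v => 2 * v.im / Real.sqrt 3 with hY
  have hXa : ∀ v w, X (v + w) = X v + X w := by intro v w; simp only [hX, add_re, add_im]; ring
  have hYa : ∀ v w, Y (v + w) = Y v + Y w := by intro v w; simp only [hY, add_im]; ring
  have hX0 : X 0 = 0 := by simp [hX]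
  have hY0 : Y 0 = 0 := by simp [hY]
  have hre : ∀ v, (rt 3 * v).re = - v.re / 2 - Real.sqrt 3 / 2 * v.im := by
    intro v
    rw [rt3]
    simp only [mul_re, mul_im, add_re, add_im, ofReal_re, ofReal_im, I_re, I_im, neg_re, neg_im,
      div_ofNat_re, div_ofNat_im, one_re, one_im]
    ring
  have him : ∀ v, (rt 3 * v).im = Real.sqrt 3 / 2 * v.re - v.im / 2 := by
    intro v
    rw [rt3]
    simp only [mul_re, mul_im, add_re, add_im, ofReal_re, ofReal_im, I_re, I_im, neg_re, neg_im,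
      div_ofNat_re, div_ofNat_im, one_re, one_im]
    ring
  have h3i : (Real.sqrt 3)⁻¹ = Real.sqrt 3 / 3 := by
    field_simp
    nlinarith [h33]
  have hXr : ∀ v, X (rt 3 * v) = - Y v := by
    intro v
    simp only [hX, hY, hre, him, div_eq_mul_inv, h3i]
    linear_combination (v.re / 6) * h33
  have hYr : ∀ v, Y (rt 3 * v) = X v - Y v := by
    intro v
    simp only [hX, hY, hre, him, div_eq_mul_inv, h3i]
    linear_combination (v.re / 3) * h33
  have hrt : rt 3 * rt 3 = -1 - rt 3 := by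
    rw [rt3]
    apply Complex.ext
    · simp only [mul_re, mul_im, add_re, add_im, sub_re, ofReal_re, ofReal_im, I_re, I_im, neg_re,
        neg_im, div_ofNat_re, div_ofNat_im, one_re, one_im]
      nlinarith [h33]
    · simp only [mul_re, mul_im, add_re, add_im, sub_im, ofReal_re, ofReal_im, I_re, I_im, neg_re,
        neg_im, div_ofNat_re, div_ofNat_im, one_re, one_im]
      ring
  let mk : (ℝ →ₗ[ℚ] ℚ) → (ℂ →+ ℂ) := fun f =>
    { toFun := fun v => ((f (X v) : ℝ) : ℂ) + rt 3 * ((f (Y v) : ℝ) : ℂ)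
      map_zero' := by simp [hX0, hY0]
      map_add' := by
        intro v w
        rw [hXa, hYa, f.map_add (X v) (X w), f.map_add (Y v) (Y w)]; push_cast; ring }
  have hmk : ∀ f v, mk f v = ((f (X v) : ℝ) : ℂ) + rt 3 * ((f (Y v) : ℝ) : ℂ) := fun f v => rfl
  have hnorm : ∀ (a b : ℝ), ‖(a : ℂ) + rt 3 * b‖ ^ 2 = a ^ 2 - a * b + b ^ 2 := by
    intro a b
    rw [← Complex.normSq_eq_norm_sq, Complex.normSq_apply, rt3]
    simp only [mul_re, mul_im, add_re, add_im, ofReal_re, ofReal_im, I_re, I_im, neg_re, neg_im,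
      div_ofNat_re, div_ofNat_im, one_re, one_im]
    nlinarith [h33]
  have hxy : X z ≠ 0 ∨ Y z ≠ 0 := by
    by_contra hcon
    push Not at hcon
    obtain ⟨e1, e2⟩ := hcon
    simp only [hX, hY] at e1 e2
    have hzim : z.im = 0 := by
      have := (div_eq_zero_iff.mp e2).resolve_right h3.ne'
      linarith
    rw [hzim, zero_div, add_zero] at e1
    exact hz (Complex.ext e1 hzim)
  have hf : ∃ f : ℝ →ₗ[ℚ] ℚ, f (X z) ≠ 0 ∨ f (Y z) ≠ 0 := by
    rcases hxy with h | h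
    · obtain ⟨f, hf⟩ := Module.Projective.exists_dual_ne_zero ℚ h
      exact ⟨f, Or.inl hf⟩
    · obtain ⟨f, hf⟩ := Module.Projective.exists_dual_ne_zero ℚ h
      exact ⟨f, Or.inr hf⟩
  obtain ⟨f, hf⟩ := hf
  refine ⟨mk f, ?_, ?_, ?_, ?_⟩
  · intro v
    rw [hmk, hmk, hXr, hYr, map_neg, map_sub]
    push_cast
    linear_combination (-((f (Y v) : ℚ) : ℂ)) * hrt
  · intro x
    rw [hmk]
    have : Y (x : ℂ) = 0 := by simp [hY]
    rw [this]; simp
  · intro h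
    rw [hmk] at h
    have h4 := hnorm (f (X z)) (f (Y z))
    rw [h, norm_zero] at h4
    have h5 : ((f (X z) : ℚ) : ℝ) = 0 ∧ ((f (Y z) : ℚ) : ℝ) = 0 := by
      constructor <;> nlinarith [sq_nonneg (((f (X z) : ℚ) : ℝ) - ((f (Y z) : ℚ) : ℝ) / 2),
        sq_nonneg (((f (Y z) : ℚ) : ℝ)), sq_nonneg (((f (X z) : ℚ) : ℝ)),
        sq_nonneg (((f (Y z) : ℚ) : ℝ) - ((f (X z) : ℚ) : ℝ) / 2)]
    rcases hf with hf | hf
    · exact hf (by exact_mod_cast h5.1)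
    · exact hf (by exact_mod_cast h5.2)
  · intro v
    refine ⟨f (X v), f (Y v), ?_⟩
    rw [hmk]
    have := hnorm (f (X v)) (f (Y v))
    rw [this]; push_cast; ring

end Pool.Agent.H110.Net
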