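import Pool.Agent.H110.NetFinal

/-!
# Two nets of different solids in the same polygon
-/

set_option autoImplicit false

namespace Pool.Agent.H110.Net

open Complex

/-- A net structure on the polygon `p`: a connected triangulation of `p` and a folding of it onto
the surface `S` with faces of side length `s`. -/
structure NetOn {k N : ℕ} (S : Surface k N) (s : ℝ) {n : ℕ} (p : ZMod n → ℂ) where
  T : Type
  [fin : Fintype T]
  [dec : DecidableEq T]
  q : T → ZMod 3 → ℂ
  tri : Triangulation p q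
  conn : tri.Connected
  fold : Folding S s tri

attribute [instance] NetOn.fin NetOn.dec

/-- The edges of the triangulation on the `j`-th side of the polygon, given by the parameters of
their end points. -/
noncomputable def NetOn.edgesOn {k N : ℕ} {S : Surface k N} {s : ℝ} {n : ℕ} {p : ZMod n → ℂ}
    (A : NetOn S s p) (j : ZMod n) : Multiset (ℝ × ℝ) :=
  (Finset.univ.filter (fun e => A.tri.mate e = none ∧ A.tri.side e = j)).val.map
    (fun e => (A.tri.lo e, A.tri.hi e))

/-- The area of the regular `k`-gon with unit sides (shoelace formula). -/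
noncomputable def unitArea (k : ℕ) [NeZero k] : ℝ :=
  (∑ j : ZMod k, cross (corner k 1 j) (corner k 1 (j + 1))) / 2

section

variable {k₁ N₁ k₂ N₂ : ℕ} {S₁ : Surface k₁ N₁} {S₂ : Surface k₂ N₂} {s₁ s₂ : ℝ}
  {n : ℕ} {p : ZMod n → ℂ}

/-- the area form of a net as a sum over the sides of the polygon -/
lemma side_sum {k N : ℕ} {S : Surface k N} {s : ℝ} [NeZero n] (A : NetOn S s p) (L : ℂ →+ ℂ) :
    ∑ e : A.T × ZMod 3, cross (L (A.q e.1 e.2)) (L (A.q e.1 (e.2 + 1)))
      = ∑ j : ZMod n, ((A.edgesOn j).map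
          (fun x => cross (L (sidePoint p j x.1)) (L (sidePoint p j x.2)))).sum := by
  set V : A.T × ZMod 3 → ℝ := fun e => cross (L (A.q e.1 e.2)) (L (A.q e.1 (e.2 + 1))) with hV
  have h1 : ∑ e ∈ Finset.univ.filter (fun e => ¬ A.tri.mate e = none), V e = 0 := by
    apply Finset.sum_involution (fun e _ => (A.tri.mate e).getD e)
    · intro e he
      rw [Finset.mem_filter] at he
      obtain ⟨e', he'⟩ := Option.ne_none_iff_exists'.mp he.2
      rw [he']
      simp only [Option.getD_some]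
      obtain ⟨h1, h2⟩ := A.tri.mate_eq _ _ he'
      simp only [hV]
      rw [h1, h2, cross_comm (L (A.q e.1 (e.2 + 1)))]
      ring
    · intro e he _
      rw [Finset.mem_filter] at he
      obtain ⟨e', he'⟩ := Option.ne_none_iff_exists'.mp he.2
      rw [he']
      simp only [Option.getD_some]
      exact A.tri.mate_ne _ _ he'
    · intro e he
      rw [Finset.mem_filter] at he
      obtain ⟨e', he'⟩ := Option.ne_none_iff_exists'.mp he.2
      rw [he']
      simp only [Option.getD_some]
      rw [Finset.mem_filter]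
      refine ⟨Finset.mem_univ _, ?_⟩
      rw [A.tri.mate_symm _ _ he']
      simp
    · intro e he
      rw [Finset.mem_filter] at he
      obtain ⟨e', he'⟩ := Option.ne_none_iff_exists'.mp he.2
      simp only [he', Option.getD_some]
      rw [A.tri.mate_symm _ _ he']
      simp
  have h2 := Finset.sum_filter_add_sum_filter_not Finset.univ (fun e => A.tri.mate e = none) V
  rw [h1, add_zero] at h2
  rw [← h2]
  rw [← Finset.sum_fiberwise_of_maps_to (s := Finset.univ.filter (fun e => A.tri.mate e = none))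
    (t := (Finset.univ : Finset (ZMod n))) (g := A.tri.side) (fun _ _ => Finset.mem_univ _)]
  apply Finset.sum_congr rfl
  intro j _
  rw [Finset.filter_filter]
  unfold NetOn.edgesOn
  rw [Multiset.map_map]
  have h7 : ∀ e ∈ Finset.univ.filter (fun e => A.tri.mate e = none ∧ A.tri.side e = j), V e =
      ((fun x : ℝ × ℝ => cross (L (sidePoint p j x.1)) (L (sidePoint p j x.2))) ∘
        (fun e => (A.tri.lo e, A.tri.hi e))) e := by
    intro e he
    rw [Finset.mem_filter] at he
    obtain ⟨-, -, -, h4, h5⟩ := A.tri.on_side e he.2.1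
    simp only [hV, Function.comp]
    rw [h4, h5, he.2.2]
  rw [Finset.sum_congr rfl h7]
  unfold Finset.sum
  congr!

/-- the contribution of a side on which the map is flat -/
lemma side_flat {k N : ℕ} {S : Surface k N} {s : ℝ} (A : NetOn S s p) (L : ℂ →+ ℂ) (j : ZMod n)
    (hL : ∀ x y : ℝ, cross (L (x * (p (j + 1) - p j))) (L (y * (p (j + 1) - p j))) = 0) :
    ((A.edgesOn j).map (fun x => cross (L (sidePoint p j x.1)) (L (sidePoint p j x.2)))).sum
      = cross (L (p j)) (L (p (j + 1))) := by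
  unfold NetOn.edgesOn
  rw [Multiset.map_map]
  change ∑ e ∈ Finset.univ.filter (fun e => A.tri.mate e = none ∧ A.tri.side e = j), _ = _
  have h3 : ∀ e ∈ Finset.univ.filter (fun e => A.tri.mate e = none ∧ A.tri.side e = j),
      ((fun x : ℝ × ℝ => cross (L (sidePoint p j x.1)) (L (sidePoint p j x.2))) ∘
        (fun e => (A.tri.lo e, A.tri.hi e))) e
      = cross (L (p j)) (L (((A.tri.hi e - A.tri.lo e : ℝ) : ℂ) * (p (j + 1) - p j))) := by
    intro e _
    simp only [Function.comp]
    unfold sidePoint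
    rw [map_add, map_add, cross_add_left, cross_add_right, cross_add_right, cross_self, hL,
      cross_comm (L ((A.tri.lo e : ℂ) * (p (j + 1) - p j))) (L (p j))]
    have : (((A.tri.hi e - A.tri.lo e : ℝ) : ℂ) * (p (j + 1) - p j))
        = (A.tri.hi e : ℂ) * (p (j + 1) - p j) - (A.tri.lo e : ℂ) * (p (j + 1) - p j) := by
      push_cast; ring
    rw [this, map_sub, cross_sub_right]; ring
  rw [Finset.sum_congr rfl h3, ← cross_sum_right, ← map_sum, ← Finset.sum_mul]
  have h6 : ∑ e ∈ Finset.univ.filter (fun e => A.tri.mate e = none ∧ A.tri.side e = j),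
      ((A.tri.hi e - A.tri.lo e : ℝ) : ℂ) = 1 := by
    have := A.tri.fill j
    rw [← Complex.ofReal_sum, this]; simp
  rw [h6, one_mul, map_sub, cross_sub_right, cross_self, sub_zero]

/-- The two area forms agree if on every side the subdivisions agree or the map is flat. -/
lemma two_nets [NeZero n] (A : NetOn S₁ s₁ p) (B : NetOn S₂ s₂ p) (L : ℂ →+ ℂ)
    (h : ∀ j, A.edgesOn j ≠ B.edgesOn j →
      ∀ x y : ℝ, cross (L (x * (p (j + 1) - p j))) (L (y * (p (j + 1) - p j))) = 0) :
    ∑ e : A.T × ZMod 3, cross (L (A.q e.1 e.2)) (L (A.q e.1 (e.2 + 1)))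
      = ∑ e : B.T × ZMod 3, cross (L (B.q e.1 e.2)) (L (B.q e.1 (e.2 + 1))) := by
  rw [side_sum, side_sum]
  apply Finset.sum_congr rfl
  intro j _
  by_cases hj : A.edgesOn j = B.edgesOn j
  · rw [hj]
  · rw [side_flat A L j (h j hj), side_flat B L j (h j hj)]

/-- the sides of a triangulated polygon do not vanish -/
lemma side_ne {k N : ℕ} {S : Surface k N} {s : ℝ} (A : NetOn S s p) (j : ZMod n) :
    p (j + 1) - p j ≠ 0 := by
  intro h
  have hf := A.tri.fill j
  have hne : (Finset.univ.filter (fun e => A.tri.mate e = none ∧ A.tri.side e = j)).Nonempty := by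
    by_contra hcon
    rw [Finset.not_nonempty_iff_eq_empty] at hcon
    rw [hcon, Finset.sum_empty] at hf
    exact zero_ne_one hf
  obtain ⟨e, he⟩ := hne
  rw [Finset.mem_filter] at he
  obtain ⟨-, -, -, h4, h5⟩ := A.tri.on_side e he.2.1
  apply edge_ne A.tri e.1 e.2
  rw [h4, h5, he.2.2]
  unfold sidePoint
  rw [h]; simp

lemma unitArea_eq (k : ℕ) [NeZero k] : Ck k (rt k) = 2 * unitArea k := by
  have h := faceForm_eq (k := k) (s := 1) (η := rt k) (M := AddMonoidHom.id ℂ) (fun v => rfl)
  unfold faceForm at h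
  simp only [AddMonoidHom.id_apply] at h
  unfold unitArea
  rw [h]; simp; ring

/-- For every direction, two nets of solids with different faces differ on a side which makes an
irrational angle with this direction. -/
theorem differ_irrational [NeZero n] (h₁ : IsPlatonic k₁ N₁) (h₂ : IsPlatonic k₂ N₂)
    (hk : k₁ ≠ k₂) (hs₁ : 0 < s₁) (hs₂ : 0 < s₂) (A : NetOn S₁ s₁ p) (B : NetOn S₂ s₂ p)
    (u : ℂ) (hu : u ≠ 0) :
    ∃ j, A.edgesOn j ≠ B.edgesOn j ∧
      ∀ (r : ℚ) (x : ℝ), p (j + 1) - p j ≠ x * exp (Real.pi * I * r) * u := by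
  by_contra hcon
  push Not at hcon
  obtain ⟨hk₁, hN₁⟩ := platonic_two_le h₁
  obtain ⟨hk₂, hN₂⟩ := platonic_two_le h₂
  have : NeZero k₁ := ⟨by omega⟩
  have : NeZero k₂ := ⟨by omega⟩
  have hs₁' : (s₁ : ℂ) ≠ 0 := by exact_mod_cast hs₁.ne'
  have hs₂' : (s₂ : ℂ) ≠ 0 := by exact_mod_cast hs₂.ne'
  have hch : ∀ j, ∃ (r : ℚ) (x : ℝ), A.edgesOn j ≠ B.edgesOn j →
      p (j + 1) - p j = x * exp (Real.pi * I * r) * u := by
    intro j
    by_cases hj : A.edgesOn j ≠ B.edgesOn j
    · obtain ⟨r, x, h⟩ := hcon j hj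
      exact ⟨r, x, fun _ => h⟩
    · exact ⟨0, 0, fun h => absurd h hj⟩
  choose r x hrx using hch
  set M := ∏ j, (2 * (r j).den) with hM
  have hMpos : 0 < M := Finset.prod_pos (fun j _ => by have := (r j).den_pos; omega)
  have hsum : ∀ L : ℂ →+ ℂ, (∀ x : ℝ, (L x).im = 0) →
      (∃ η : ℂ, ‖η‖ = 1 ∧ ∀ v, L (rt M * v) = η * L v) →
      ∑ e : A.T × ZMod 3, cross (frame L u (A.q e.1 e.2)) (frame L u (A.q e.1 (e.2 + 1)))
        = ∑ e : B.T × ZMod 3, cross (frame L u (B.q e.1 e.2)) (frame L u (B.q e.1 (e.2 + 1))) := by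
    intro L hreal hη
    obtain ⟨η, hη1, hη2⟩ := hη
    apply two_nets
    intro j hj a b
    rw [hrx j hj]
    obtain ⟨h, hh⟩ := exp_rational (r j)
    rw [hh]
    have hdvd : 2 * (r j).den ∣ M := Finset.dvd_prod_of_mem _ (Finset.mem_univ j)
    rw [← rt_dvd hMpos hdvd, ← pow_mul]
    exact flat_of hreal (by rw [norm_pow, hη1, one_pow]) (pow_map hη2 _) hu (x j) a b
  have hne₁ := nonempty_of_triangulation A.tri
  have hne₂ := nonempty_of_triangulation B.tri
  set t₁ := Classical.arbitrary A.T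
  set t₂ := Classical.arbitrary B.T
  rcases twist_pair h₁ h₂ hk M hMpos with h | h
  · obtain ⟨L, hL1, hL2, hL3, hL4, hL5⟩ := h (u⁻¹ * (s₁ / A.fold.rot t₁))
      (mul_ne_zero (inv_ne_zero hu) (div_ne_zero hs₁' (rot_ne A.fold t₁)))
    exact sign_contradiction hk₁ hk₂ hN₁ hs₁.ne' A.conn A.fold B.conn B.fold t₁ (frame L u)
      (frame_semi hL1 u) (frame_semi hL2 u) hL4 (hsum L hL3 hL5)
  · obtain ⟨L, hL1, hL2, hL3, hL4, hL5⟩ := h (u⁻¹ * (s₂ / B.fold.rot t₂))
      (mul_ne_zero (inv_ne_zero hu) (div_ne_zero hs₂' (rot_ne B.fold t₂)))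
    exact sign_contradiction hk₂ hk₁ hN₂ hs₂.ne' B.conn B.fold A.conn A.fold t₂ (frame L u)
      (frame_semi hL1 u) (frame_semi hL2 u) hL4 (hsum L hL3 hL5).symm

end

end Pool.Agent.H110.Net
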