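import Pool.Agent.H110.Refl.Defs

namespace Pool.Agent.H110.RMax

open Pool.Agent.H110.Refl

/-- No three distinct points of `S` are collinear. -/
def GeneralPosition (S : Finset Pt) : Prop :=
  ∀ a ∈ S, ∀ b ∈ S, ∀ c ∈ S, a ≠ b → b ≠ c → a ≠ c → ¬ Collinear ℝ ({a, b, c} : Set Pt)

/-- `ρ(n)`: the largest reflexivity of a set of `n` points in general position. -/
noncomputable def rhoMax (n : ℕ) : ℕ :=
  sSup {k | ∃ S : Finset Pt, S.card = n ∧ GeneralPosition S ∧ rho S = k}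

open Classical in
theorem rho_le_card (S : Finset Pt) : rho S ≤ S.card := by
  unfold rho
  rcases Set.eq_empty_or_nonempty {k | ∃ v, IsPolygonization S v ∧ reflexCount S.card v = k} with h | h
  · rw [h, Nat.sInf_empty]
    exact Nat.zero_le _
  · obtain ⟨v, -, hk⟩ := Nat.sInf_mem h
    rw [← hk]
    unfold reflexCount
    exact (Finset.card_filter_le _ _).trans (by rw [Finset.card_range])

theorem bdd (n : ℕ) : BddAbove {k | ∃ S : Finset Pt, S.card = n ∧ GeneralPosition S ∧ rho S = k} := by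
  refine ⟨n, ?_⟩
  rintro k ⟨S, h1, -, rfl⟩
  rw [← h1]
  exact rho_le_card S

theorem le_rhoMax (S : Finset Pt) (h : GeneralPosition S) : rho S ≤ rhoMax S.card :=
  le_csSup (bdd _) ⟨S, rfl, h, rfl⟩

theorem le_of_le_rho {S : Finset Pt} {m : ℕ} (h : m ≤ rho S) (v : ℕ → Pt) (hv : IsPolygonization S v) :
    m ≤ reflexCount S.card v :=
  h.trans (Nat.sInf_le ⟨v, hv, rfl⟩)

theorem not_collinear (a b c : Pt) (h : turn a b c ≠ 0) : ¬ Collinear ℝ ({a, b, c} : Set Pt) := by
  intro hcol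
  have ha : a ∈ ({a, b, c} : Set Pt) := by simp
  have hb : b ∈ ({a, b, c} : Set Pt) := by simp
  have hc : c ∈ ({a, b, c} : Set Pt) := by simp
  rw [collinear_iff_of_mem ha] at hcol
  obtain ⟨v, hv⟩ := hcol
  obtain ⟨r, hr⟩ := hv b hb
  obtain ⟨s, hs⟩ := hv c hc
  apply h
  rw [vadd_eq_add] at hr hs
  rw [hr, hs]
  unfold turn
  simp only [Prod.fst_add, Prod.snd_add, Prod.smul_fst, Prod.smul_snd, smul_eq_mul]
  ring

end Pool.Agent.H110.RMax
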